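import Mathlib

set_option autoImplicit false
open MeasureTheory Filter Topology Set
open scoped ENNReal NNReal ComplexConjugate InnerProductSpace

namespace Pool.Agent.K4H52.DA

variable {V : Type*} [NormedAddCommGroup V] [InnerProductSpace ℂ V] {X : Type*}

/-- `φ` acts contractively: `k_x ↦ conj (φ x) k_x` is a contraction on the span of the `k_x`. -/
def Contr (k : X → V) (φ : X → ℂ) : Prop :=
  ∀ (s : Finset X) (c : X → ℂ), ‖∑ x ∈ s, (c x * conj (φ x)) • k x‖ ≤ ‖∑ x ∈ s, c x • k x‖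

/-- A contractive kernel multiplier acts on the reproducing kernel Hilbert space. -/
theorem Contr.exists_mul [CompleteSpace V] {k : X → V} {φ : X → ℂ} (h : Contr k φ) (u : V) :
    ∃ u' : V, ∀ x, ⟪k x, u'⟫_ℂ = φ x * ⟪k x, u⟫_ℂ := by
  classical
  let P : (X →₀ ℂ) →ₗ[ℂ] V := Finsupp.linearCombination ℂ k
  let Q : (X →₀ ℂ) →ₗ[ℂ] V := Finsupp.linearCombination ℂ (fun x => conj (φ x) • k x)
  have hPQ : ∀ c, ‖Q c‖ ≤ ‖P c‖ := by
    intro c
    have := h c.support c
    simp only [P, Q, Finsupp.linearCombination_apply, Finsupp.sum]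
    simpa [smul_smul] using this
  obtain ⟨σ, hσ⟩ := (P.rangeRestrict).exists_rightInverse_of_surjective P.range_rangeRestrict
  have hPσ : ∀ y : LinearMap.range P, P (σ y) = y := by
    intro y
    have := LinearMap.congr_fun hσ y
    have h2 := congrArg Subtype.val this
    simpa using h2
  let L : LinearMap.range P →ₗ[ℂ] V := Q.comp σ
  have hL : ∀ y, ‖L y‖ ≤ 1 * ‖y‖ := by
    intro y
    rw [one_mul]
    calc ‖Q (σ y)‖ ≤ ‖P (σ y)‖ := hPQ _
      _ = ‖y‖ := by rw [hPσ]; rfl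
  let Lc : LinearMap.range P →L[ℂ] V := L.mkContinuous 1 hL
  let ψ : LinearMap.range P →L[ℂ] ℂ := (innerSL ℂ u).comp Lc
  obtain ⟨g, hg, -⟩ := exists_extension_norm_eq (LinearMap.range P) ψ
  refine ⟨(InnerProductSpace.toDual ℂ V).symm g, fun x => ?_⟩
  have hkx : k x ∈ LinearMap.range P := ⟨Finsupp.single x 1, by simp [P]⟩
  have h1 : g (k x) = conj (φ x) * ⟪u, k x⟫_ℂ := by
    have h2 := hg ⟨k x, hkx⟩
    rw [show ((⟨k x, hkx⟩ : LinearMap.range P) : V) = k x from rfl] at h2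
    rw [h2]
    have h3 : L ⟨k x, hkx⟩ = conj (φ x) • k x := by
      have h4 : P (σ ⟨k x, hkx⟩ - Finsupp.single x 1) = 0 := by
        rw [map_sub, hPσ]
        simp [P]
      have h5 : Q (σ ⟨k x, hkx⟩ - Finsupp.single x 1) = 0 := by
        have := hPQ (σ ⟨k x, hkx⟩ - Finsupp.single x 1)
        rw [h4, norm_zero] at this
        exact norm_le_zero_iff.1 this
      rw [map_sub, sub_eq_zero] at h5
      change Q (σ ⟨k x, hkx⟩) = _
      rw [h5]
      simp [Q]
    change ⟪u, L ⟨k x, hkx⟩⟫_ℂ = _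
    rw [h3, inner_smul_right]
  have h6 : ⟪(InnerProductSpace.toDual ℂ V).symm g, k x⟫_ℂ = g (k x) :=
    InnerProductSpace.toDual_symm_apply
  rw [← inner_conj_symm, h6, h1, map_mul, Complex.conj_conj, inner_conj_symm]

end Pool.Agent.K4H52.DA
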