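import Pool.Agent.K4H52.DA.Sing

set_option autoImplicit false
open MeasureTheory Filter Topology Set
open scoped ENNReal NNReal ComplexConjugate InnerProductSpace

namespace Pool.Agent.K4H52.DA

/-- Normalised Lebesgue measure on `(0, 2π]`. -/
noncomputable def mm : Measure ℝ :=
  (ENNReal.ofReal (2 * Real.pi))⁻¹ • (volume.restrict (Ioc 0 (2 * Real.pi)))

instance : IsProbabilityMeasure mm := by
  constructor
  unfold mm
  rw [Measure.smul_apply, Measure.restrict_apply_univ, Real.volume_Ioc, sub_zero, smul_eq_mul]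
  apply ENNReal.inv_mul_cancel
  · simp [Real.pi_pos]
  · exact ENNReal.ofReal_ne_top

lemma integral_mm {E : Type*} [NormedAddCommGroup E] [NormedSpace ℝ E] (g : ℝ → E) :
    ∫ t, g t ∂mm = (2 * Real.pi)⁻¹ • ∫ t in (0:ℝ)..(2 * Real.pi), g t := by
  unfold mm
  rw [integral_smul_measure, intervalIntegral.integral_of_le (by positivity)]
  congr 1
  rw [ENNReal.toReal_inv, ENNReal.toReal_ofReal (by positivity)]

lemma ae_mm {p : ℝ → Prop} (h : ∀ᵐ t : ℝ, p t) : ∀ᵐ t ∂mm, p t := by
  unfold mm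
  exact Measure.ae_smul_measure (ae_restrict_of_ae h) _

lemma avg_eq {E : Type*} [NormedAddCommGroup E] [NormedSpace ℝ E] (f : ℂ → E) (r : ℝ) :
    ∫ t, f (r * xi t) ∂mm = Real.circleAverage f 0 r := by
  rw [integral_mm, Real.circleAverage]
  congr 1
  apply intervalIntegral.integral_congr
  intro t _
  simp only [circleMap_zero]
  rfl

lemma mean_value {f : ℂ → ℂ} {r : ℝ} (hr : 0 < r) (hf : DiffContOnCl ℂ f (Metric.ball 0 r)) :
    ∫ t, f (r * xi t) ∂mm = f 0 := by
  rw [avg_eq]
  apply DiffContOnCl.circleAverage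
  rwa [abs_of_pos hr]

lemma norm_r_xi {r : ℝ} (hr : 0 ≤ r) (t : ℝ) : ‖(r : ℂ) * xi t‖ = r := by
  rw [norm_mul, norm_xi, mul_one, Complex.norm_real, Real.norm_eq_abs, abs_of_nonneg hr]

/-- The `L²` norm on a circle of radius `r < 1` is at most the `ℓ²` norm of the coefficients. -/
lemma l2_bound {c : ℕ → ℂ} (hc : Summable fun j => ‖c j‖ ^ 2) {g : ℂ → ℂ} {r : ℝ} (hr : 0 ≤ r)
    (hr1 : r < 1) (hg : ∀ w : ℂ, ‖w‖ < 1 → HasSum (fun j => c j * w ^ j) (g w)) :
    ∫ t, ‖g (r * xi t)‖ ^ 2 ∂mm ≤ ∑' j, ‖c j‖ ^ 2 := by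
  have hsum : Summable fun j => ‖c j‖ * r ^ j := by
    have h1 := (hg r (by rw [Complex.norm_real, Real.norm_eq_abs, abs_of_nonneg hr]; exact hr1)).summable.norm
    refine h1.congr fun j => ?_
    rw [norm_mul, norm_pow, Complex.norm_real, Real.norm_eq_abs, abs_of_nonneg hr]
  set p : ℕ → ℝ → ℂ := fun n t => ∑ j ∈ Finset.range n, c j * (r * xi t) ^ j with hp
  have hlim : Tendsto (fun n => ∫ t, ‖p n t‖ ^ 2 ∂mm) atTop (𝓝 (∫ t, ‖g (r * xi t)‖ ^ 2 ∂mm)) := by
    apply tendsto_integral_of_dominated_convergence (fun _ => (∑' j, ‖c j‖ * r ^ j) ^ 2)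
    · intro n
      apply Continuous.aestronglyMeasurable
      have := continuous_xi
      fun_prop
    · exact integrable_const _
    · intro n
      refine Eventually.of_forall fun t => ?_
      rw [norm_pow, norm_norm]
      apply pow_le_pow_left₀ (norm_nonneg _)
      refine (norm_sum_le _ _).trans ?_
      have : ∀ j ∈ Finset.range n, ‖c j * (r * xi t) ^ j‖ = ‖c j‖ * r ^ j := by
        intro j _
        rw [norm_mul, norm_pow, norm_r_xi hr]
      rw [Finset.sum_congr rfl this]
      exact hsum.sum_le_tsum _ fun j _ => by positivity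
    · refine Eventually.of_forall fun t => ?_
      have h1 := (hg (r * xi t) (by rw [norm_r_xi hr]; exact hr1)).tendsto_sum_nat
      exact (h1.norm).pow 2
  refine le_of_tendsto' hlim fun n => ?_
  let P : Polynomial ℂ := ∑ j ∈ Finset.range n, Polynomial.monomial j (c j * (r : ℂ) ^ j)
  have hcoeff : ∀ i, P.coeff i = if i < n then c i * (r : ℂ) ^ i else 0 := by
    intro i
    simp only [P, Polynomial.finsetSum_coeff, Polynomial.coeff_monomial, Finset.sum_ite_eq',
      Finset.mem_range]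
  have heval : ∀ t, P.eval (xi t) = p n t := by
    intro t
    simp only [P, Polynomial.eval_finsetSum, Polynomial.eval_monomial, hp]
    refine Finset.sum_congr rfl fun j _ => ?_
    rw [mul_pow]
    ring
  have h2 := Polynomial.sum_sq_norm_coeff_eq_circleAverage P
  rw [← avg_eq (fun θ => ‖P.eval θ‖ ^ 2) 1] at h2
  simp only [Complex.ofReal_one, one_mul, heval] at h2
  rw [← h2]
  calc ∑ i ∈ P.support, ‖P.coeff i‖ ^ 2 ≤ ∑ i ∈ P.support, ‖c i‖ ^ 2 := by
        apply Finset.sum_le_sum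
        intro i _
        rw [hcoeff]
        split_ifs
        · rw [norm_mul, norm_pow, Complex.norm_real, Real.norm_eq_abs, abs_of_nonneg hr]
          apply pow_le_pow_left₀ (by positivity)
          have : r ^ i ≤ 1 := pow_le_one₀ hr hr1.le
          exact mul_le_of_le_one_right (norm_nonneg _) this
        · simp
    _ ≤ ∑' j, ‖c j‖ ^ 2 := hc.sum_le_tsum _ fun j _ => by positivity

/-- `|S|^m → 1` in `L¹` of the circles of radius `r → 1`. -/
lemma tendsto_D {ν : Measure ℝ} [IsProbabilityMeasure ν] (hν : ν (cantorSet)ᶜ = 0) (m : ℕ) :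
    Tendsto (fun r : ℝ => ∫ t, (1 - ‖Sf ν (r * xi t)‖ ^ m) ∂mm) (𝓝[<] 1) (𝓝 0) := by
  have h0 : (0:ℝ) = ∫ t, (0:ℝ) ∂mm := by simp
  rw [h0]
  have hr01 : ∀ᶠ r : ℝ in 𝓝[<] 1, 0 < r ∧ r < 1 := by
    have h1 : ∀ᶠ r : ℝ in 𝓝[<] 1, (0:ℝ) < r := by
      apply eventually_nhdsWithin_of_eventually_nhds
      exact lt_mem_nhds one_pos
    filter_upwards [h1, self_mem_nhdsWithin] with r hr hr1
    exact ⟨hr, hr1⟩
  apply tendsto_integral_filter_of_dominated_convergence (fun _ => (1:ℝ))
  · filter_upwards [hr01] with r hr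
    apply Continuous.aestronglyMeasurable
    apply continuous_const.sub
    apply Continuous.pow
    apply Continuous.norm
    rw [continuous_iff_continuousAt]
    intro t
    have h2 : ‖(r : ℂ) * xi t‖ < 1 := by
      rw [norm_r_xi hr.1.le]
      exact hr.2
    have h3 : ContinuousAt (Sf ν) ((r : ℂ) * xi t) := (differentiableAt_Sf ν h2).continuousAt
    exact ContinuousAt.comp (f := fun t => (r : ℂ) * xi t) (g := Sf ν) h3
      (continuous_const.mul continuous_xi).continuousAt
  · filter_upwards [hr01] with r hr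
    refine Eventually.of_forall fun t => ?_
    have h2 : ‖(r : ℂ) * xi t‖ < 1 := by
      rw [norm_r_xi hr.1.le]
      exact hr.2
    have h3 := norm_Sf_le ν h2
    have h4 : ‖Sf ν (r * xi t)‖ ^ m ≤ 1 := pow_le_one₀ (norm_nonneg _) h3
    have h5 : 0 ≤ ‖Sf ν (r * xi t)‖ ^ m := by positivity
    rw [Real.norm_eq_abs, abs_le]
    constructor <;> linarith
  · exact integrable_const _
  · filter_upwards [ae_mm ae_not_mem] with t ht
    have h1 := ((tendsto_norm_Sf hν ht).pow m).const_sub 1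
    simpa using h1

end Pool.Agent.K4H52.DA
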