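import Mathlib

set_option autoImplicit false

/-!
# Drury-Arveson space: definitions (MP_2f94f8_an)

Everything is defined from scratch for the space `H²_d` of the open unit ball of `ℂ^d`.
-/

namespace Pool.Agent.K4H52.DA

open Filter Topology MeasureTheory

/-- The open unit ball of `ℂ^d` (with the Euclidean norm). -/
def Ball (d : ℕ) : Type := {z : Fin d → ℂ // ∑ i, ‖z i‖ ^ 2 < 1}

/-- The weight `α! / |α|!` of a multi-index `α`. -/
noncomputable def wt {d : ℕ} (α : Fin d → ℕ) : ℝ :=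
  (∏ i, ((α i).factorial : ℝ)) / ((∑ i, α i).factorial : ℝ)

/-- `f` is an element of the Drury-Arveson space with Taylor coefficients `a`: the power series
`∑ a_α z^α` converges to `f z` at every point `z` of the ball, and
`‖f‖² = ∑ α!/|α|! |a_α|²` is finite. -/
structure HasCoeff {d : ℕ} (f : Ball d → ℂ) (a : (Fin d → ℕ) → ℂ) : Prop where
  summable : Summable fun α => wt α * ‖a α‖ ^ 2
  hasSum : ∀ z : Ball d, HasSum (fun α => a α * ∏ i, z.1 i ^ α i) (f z)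

/-- The Drury-Arveson space `H²_d`, as a set of functions on the ball. -/
def HSpace (d : ℕ) : Set (Ball d → ℂ) := {f | ∃ a, HasCoeff f a}

/-- `‖f‖² < ε` in `H²_d`. -/
def NormSqLT {d : ℕ} (f : Ball d → ℂ) (ε : ℝ) : Prop :=
  ∃ a, HasCoeff f a ∧ ∑' α, wt α * ‖a α‖ ^ 2 < ε

/-- The multiplier algebra `Mult(H²_d)`. -/
def Mult (d : ℕ) : Set (Ball d → ℂ) := {φ | ∀ f ∈ HSpace d, φ * f ∈ HSpace d}

/-- `[f]`: the closure in `H²_d` of `{φ f : φ ∈ Mult(H²_d)}`. -/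
def Cyc {d : ℕ} (f : Ball d → ℂ) : Set (Ball d → ℂ) :=
  {g | g ∈ HSpace d ∧ ∀ ε : ℝ, 0 < ε → ∃ φ ∈ Mult d, NormSqLT (g - φ * f) ε}

open Classical in
/-- The slice `f_z(λ) = f(λ z)`, as a function of `λ ∈ ℂ` (with the value `0` where `λ z` is not in
the ball, which for `z` in the unit sphere happens exactly when `|λ| ≥ 1`). -/
noncomputable def slice {d : ℕ} (f : Ball d → ℂ) (z : Fin d → ℂ) : ℂ → ℂ := fun w =>
  if h : ∑ i, ‖w * z i‖ ^ 2 < 1 then f ⟨fun i => w * z i, h⟩ else 0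

/-- `g` (of which only the values on the open unit disc matter) is an outer function in `H^∞(𝔻)`:
it is analytic and bounded on the disc, `g 0 ≠ 0`, and for its radial boundary function `G`
(the limit exists and is nonzero for almost every `t`) `log |G|` is integrable and
`log |g 0| = (2π)⁻¹ ∫ log |G|`. -/
def IsOuter (g : ℂ → ℂ) : Prop :=
  DifferentiableOn ℂ g (Metric.ball 0 1) ∧ (∃ C : ℝ, ∀ w ∈ Metric.ball (0:ℂ) 1, ‖g w‖ ≤ C) ∧
  g 0 ≠ 0 ∧
  ∃ G : ℝ → ℂ,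
    (∀ᵐ t : ℝ, Tendsto (fun r : ℝ => g (r * Complex.exp (t * Complex.I))) (𝓝[<] 1) (𝓝 (G t)) ∧
      G t ≠ 0) ∧
    IntegrableOn (fun t => Real.log ‖G t‖) (Set.Ioc 0 (2 * Real.pi)) ∧
    Real.log ‖g 0‖ = (2 * Real.pi)⁻¹ * ∫ t in (0:ℝ)..(2 * Real.pi), Real.log ‖G t‖

end Pool.Agent.K4H52.DA
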