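import Pool.Agent.K4H52.DA.Abs

set_option autoImplicit false
open MeasureTheory Filter Topology Set
open scoped ENNReal NNReal ComplexConjugate InnerProductSpace

namespace Pool.Agent.K4H52.DA

/-- The point `e^{iθ}`. -/
noncomputable def xi (θ : ℝ) : ℂ := Complex.exp (θ * Complex.I)

lemma norm_xi (θ : ℝ) : ‖xi θ‖ = 1 := Complex.norm_exp_ofReal_mul_I θ

lemma continuous_xi : Continuous xi := by
  unfold xi
  fun_prop

lemma xi_sub_ne {w : ℂ} (hw : ‖w‖ < 1) (θ : ℝ) : xi θ - w ≠ 0 := by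
  intro h
  rw [sub_eq_zero] at h
  rw [← h, norm_xi] at hw
  exact lt_irrefl _ hw

lemma norm_xi_sub {w : ℂ} (θ : ℝ) : 1 - ‖w‖ ≤ ‖xi θ - w‖ := by
  have := norm_sub_norm_le (xi θ) w
  rwa [norm_xi] at this

/-- The Herglotz kernel. -/
noncomputable def herg (θ : ℝ) (w : ℂ) : ℂ := (xi θ + w) / (xi θ - w)

lemma norm_herg_le {w : ℂ} (hw : ‖w‖ < 1) (θ : ℝ) : ‖herg θ w‖ ≤ 2 / (1 - ‖w‖) := by
  unfold herg
  rw [norm_div]
  have h1 : ‖xi θ + w‖ ≤ 2 := by
    calc ‖xi θ + w‖ ≤ ‖xi θ‖ + ‖w‖ := norm_add_le _ _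
      _ ≤ 1 + 1 := by
        rw [norm_xi]
        linarith
      _ = 2 := by norm_num
  have h2 := norm_xi_sub (w := w) θ
  have h3 : 0 < 1 - ‖w‖ := by linarith
  exact div_le_div₀ (by norm_num) h1 h3 h2

lemma continuous_herg {w : ℂ} (hw : ‖w‖ < 1) : Continuous fun θ => herg θ w := by
  unfold herg
  exact (continuous_xi.add continuous_const).div (continuous_xi.sub continuous_const)
    (xi_sub_ne hw)

lemma integrable_herg (ν : Measure ℝ) [IsFiniteMeasure ν] {w : ℂ} (hw : ‖w‖ < 1) :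
    Integrable (fun θ => herg θ w) ν :=
  Integrable.of_bound (continuous_herg hw).aestronglyMeasurable (2 / (1 - ‖w‖))
    (Eventually.of_forall fun θ => norm_herg_le hw θ)

lemma herg_re {w : ℂ} (θ : ℝ) : (herg θ w).re = (1 - ‖w‖ ^ 2) / ‖xi θ - w‖ ^ 2 := by
  unfold herg
  have h1 := norm_xi θ
  rw [Complex.div_re]
  rw [← Complex.normSq_eq_norm_sq, ← Complex.normSq_eq_norm_sq]
  have h2 : Complex.normSq (xi θ) = 1 := by
    rw [Complex.normSq_eq_norm_sq, h1, one_pow]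
  rw [Complex.normSq_apply] at h2
  rw [← add_div]
  congr 1
  rw [Complex.normSq_apply]
  simp only [Complex.add_re, Complex.sub_re, Complex.add_im, Complex.sub_im]
  linear_combination h2

variable {V : Type*} [NormedAddCommGroup V] [InnerProductSpace ℂ V] {X : Type*}

theorem Contr.herg_re_nonneg {k : X → V} {φ : X → ℂ} (h : Contr k φ) (hφ : ∀ x, ‖φ x‖ < 1)
    (s : Finset X) (d : X → ℂ) (θ : ℝ) :
    0 ≤ (⟪∑ x ∈ s, d x • k x, ∑ x ∈ s, (d x * conj (herg θ (φ x))) • k x⟫_ℂ).re := by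
  set e : X → ℂ := fun x => d x / conj (xi θ - φ x) with he
  set Z : V := ∑ x ∈ s, e x • k x with hZ
  set W : V := ∑ x ∈ s, (e x * conj (φ x)) • k x with hW
  have hne : ∀ x, conj (xi θ - φ x) ≠ 0 := fun x =>
    (map_ne_zero _).2 (xi_sub_ne (hφ x) θ)
  have h1 : ∑ x ∈ s, d x • k x = conj (xi θ) • Z - W := by
    rw [hZ, hW, Finset.smul_sum, ← Finset.sum_sub_distrib]
    refine Finset.sum_congr rfl fun x _ => ?_
    rw [smul_smul, ← sub_smul]
    congr 1
    have := hne x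
    simp only [he, map_sub] at this ⊢
    field_simp
  have h2 : ∑ x ∈ s, (d x * conj (herg θ (φ x))) • k x = conj (xi θ) • Z + W := by
    rw [hZ, hW, Finset.smul_sum, ← Finset.sum_add_distrib]
    refine Finset.sum_congr rfl fun x _ => ?_
    rw [smul_smul, ← add_smul]
    congr 1
    have := hne x
    unfold herg
    simp only [he, map_div₀, map_add, map_sub] at this ⊢
    field_simp
  rw [h1, h2]
  set A : V := conj (xi θ) • Z with hA
  have h3 : ‖A‖ = ‖Z‖ := by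
    rw [hA, norm_smul, RCLike.norm_conj, norm_xi, one_mul]
  have h4 : ‖W‖ ≤ ‖Z‖ := h s e
  have h5 : (⟪A - W, A + W⟫_ℂ).re = ‖A‖ ^ 2 - ‖W‖ ^ 2 := by
    rw [inner_sub_left, inner_add_right, inner_add_right]
    have h6 : (⟪A, W⟫_ℂ).re = (⟪W, A⟫_ℂ).re := by
      rw [← inner_conj_symm, Complex.conj_re]
    have h7 : (⟪A, A⟫_ℂ).re = ‖A‖ ^ 2 := by
      rw [inner_self_eq_norm_sq_to_K]
      norm_cast
    have h8 : (⟪W, W⟫_ℂ).re = ‖W‖ ^ 2 := by
      rw [inner_self_eq_norm_sq_to_K]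
      norm_cast
    simp only [Complex.sub_re, Complex.add_re]
    rw [h7, h8, h6]
    ring
  rw [h5, h3]
  have := norm_nonneg W
  nlinarith

/-- The Herglotz transform of `ν`. -/
noncomputable def Hf (ν : Measure ℝ) (w : ℂ) : ℂ := ∫ θ, herg θ w ∂ν

/-- The singular inner function attached to `ν`. -/
noncomputable def Sf (ν : Measure ℝ) (w : ℂ) : ℂ := Complex.exp (-(Hf ν w))

theorem Contr.Hf_re_nonneg (ν : Measure ℝ) [IsFiniteMeasure ν] {k : X → V} {φ : X → ℂ}
    (h : Contr k φ) (hφ : ∀ x, ‖φ x‖ < 1)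
    (s : Finset X) (d : X → ℂ) :
    0 ≤ (⟪∑ x ∈ s, d x • k x, ∑ x ∈ s, (d x * conj (Hf ν (φ x))) • k x⟫_ℂ).re := by
  set Y : V := ∑ x ∈ s, d x • k x with hY
  have h1 : ∀ g : X → ℂ, ⟪Y, ∑ x ∈ s, (d x * g x) • k x⟫_ℂ = ∑ x ∈ s, (d x * ⟪Y, k x⟫_ℂ) * g x := by
    intro g
    rw [inner_sum]
    refine Finset.sum_congr rfl fun x _ => ?_
    rw [inner_smul_right]
    ring
  have h2 : ⟪Y, ∑ x ∈ s, (d x * conj (Hf ν (φ x))) • k x⟫_ℂ =
      ∫ θ, ⟪Y, ∑ x ∈ s, (d x * conj (herg θ (φ x))) • k x⟫_ℂ ∂ν := by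
    rw [h1 (fun x => conj (Hf ν (φ x)))]
    simp_rw [h1 (fun x => conj (herg _ (φ x)))]
    rw [integral_finsetSum]
    · refine Finset.sum_congr rfl fun x _ => ?_
      rw [integral_const_mul]
      congr 1
      unfold Hf
      rw [integral_conj]
    · intro x _
      apply Integrable.const_mul
      exact (Complex.conjLIE.integrable_comp_iff).2 (integrable_herg ν (hφ x))
  rw [h2]
  have hint : Integrable (fun θ => ⟪Y, ∑ x ∈ s, (d x * conj (herg θ (φ x))) • k x⟫_ℂ) ν := by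
    simp_rw [h1 (fun x => conj (herg _ (φ x)))]
    apply integrable_finsetSum
    intro x _
    apply Integrable.const_mul
    exact (Complex.conjLIE.integrable_comp_iff).2 (integrable_herg ν (hφ x))
  have h3 := integral_re hint
  rw [← RCLike.re_eq_complex_re, ← h3]
  apply integral_nonneg
  intro θ
  exact h.herg_re_nonneg hφ s d θ

theorem Contr.exp (ν : Measure ℝ) [IsFiniteMeasure ν] {k : X → V} {φ : X → ℂ}
    (h : Contr k φ) (hφ : ∀ x, ‖φ x‖ < 1) : Contr k (fun x => Sf ν (φ x)) := by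
  intro s c
  let y : ℝ → V := fun t => ∑ x ∈ s, (c x * Complex.exp (-(t * conj (Hf ν (φ x))))) • k x
  let y' : ℝ → V := fun t =>
    ∑ x ∈ s, (c x * (Complex.exp (-(t * conj (Hf ν (φ x)))) * (-(conj (Hf ν (φ x)))))) • k x
  have hd : ∀ t : ℝ, HasDerivAt y (y' t) t := by
    intro t
    apply HasDerivAt.fun_sum
    intro x _
    apply HasDerivAt.smul_const
    apply HasDerivAt.const_mul
    have h1 : HasDerivAt (fun t : ℝ => -((t : ℂ) * conj (Hf ν (φ x)))) (-(conj (Hf ν (φ x)))) t := by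
      have h2 : HasDerivAt (fun t : ℝ => (t : ℂ)) 1 t := Complex.ofRealCLM.hasDerivAt
      have h3 := (h2.mul_const (conj (Hf ν (φ x)))).neg
      rw [one_mul] at h3
      exact h3
    exact h1.cexp
  have hN : ∀ t : ℝ, HasDerivAt (fun t => ‖y t‖ ^ 2) (2 * (⟪y t, y' t⟫_ℂ).re) t := by
    intro t
    have h1 := HasDerivAt.inner ℂ (hd t) (hd t)
    have h2 := Complex.reCLM.hasFDerivAt.comp_hasDerivAt t h1
    have h3 : (Complex.reCLM ∘ fun t => ⟪y t, y t⟫_ℂ) = fun t => ‖y t‖ ^ 2 := by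
      funext t
      simp only [Function.comp, Complex.reCLM_apply]
      rw [inner_self_eq_norm_sq_to_K]
      norm_cast
    rw [h3] at h2
    have h4 : Complex.reCLM (⟪y t, y' t⟫_ℂ + ⟪y' t, y t⟫_ℂ) = 2 * (⟪y t, y' t⟫_ℂ).re := by
      rw [Complex.reCLM_apply, Complex.add_re, ← inner_conj_symm (y' t) (y t), Complex.conj_re]
      ring
    rw [h4] at h2
    exact h2
  have hneg : ∀ t : ℝ, 2 * (⟪y t, y' t⟫_ℂ).re ≤ 0 := by
    intro t
    have h1 := h.Hf_re_nonneg ν hφ s (fun x => c x * Complex.exp (-(t * conj (Hf ν (φ x)))))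
    have h2 : y' t = - ∑ x ∈ s, (c x * Complex.exp (-(t * conj (Hf ν (φ x)))) *
        conj (Hf ν (φ x))) • k x := by
      rw [← Finset.sum_neg_distrib]
      refine Finset.sum_congr rfl fun x _ => ?_
      rw [← neg_smul]
      congr 1
      ring
    rw [h2, inner_neg_right, Complex.neg_re]
    linarith
  have hanti : Antitone fun t => ‖y t‖ ^ 2 :=
    antitone_of_hasDerivAt_nonpos hN hneg
  have h01 := hanti (zero_le_one)
  have e0 : y 0 = ∑ x ∈ s, c x • k x := by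
    simp [y]
  have e1 : y 1 = ∑ x ∈ s, (c x * conj (Sf ν (φ x))) • k x := by
    refine Finset.sum_congr rfl fun x _ => ?_
    unfold Sf
    rw [← Complex.exp_conj]
    simp
  simp only [e0, e1] at h01
  exact abs_le_of_sq_le_sq' h01 (norm_nonneg _) |>.2

end Pool.Agent.K4H52.DA
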