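import Pool.Agent.K4H52.DA.Herg
import Pool.Agent.K4H52.DA.Defs

set_option autoImplicit false
open MeasureTheory Filter Topology Set
open scoped ENNReal NNReal ComplexConjugate InnerProductSpace

namespace Pool.Agent.K4H52.DA

lemma wt_pos {d : ℕ} (α : Fin d → ℕ) : 0 < wt α := by
  unfold wt
  positivity

lemma wt_inv (α : Fin 2 → ℕ) : (wt α)⁻¹ = ((α 0 + α 1).choose (α 0) : ℝ) := by
  unfold wt
  rw [Fin.prod_univ_two, Fin.sum_univ_two, inv_div, Nat.cast_add_choose]

lemma real_sum {x y : ℝ} (hx : 0 ≤ x) (hy : 0 ≤ y) (hxy : x + y < 1) :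
    Summable fun p : ℕ × ℕ => ((p.1 + p.2).choose p.1 : ℝ) * (x ^ p.1 * y ^ p.2) := by
  have hy1 : y < 1 := by linarith
  have h1 : ∀ j : ℕ, HasSum (fun k : ℕ => ((j + k).choose j : ℝ) * (x ^ j * y ^ k))
      (x ^ j * (1 / (1 - y) ^ (j + 1))) := by
    intro j
    have h2 := hasSum_choose_mul_geometric_of_norm_lt_one (𝕜 := ℝ) j (r := y)
      (by rw [Real.norm_eq_abs, abs_of_nonneg hy]; exact hy1)
    have h3 := h2.mul_left (x ^ j)
    refine h3.congr_fun ?_
    intro k
    rw [add_comm j k]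
    ring
  rw [summable_prod_of_nonneg]
  · refine ⟨fun j => (h1 j).summable, ?_⟩
    simp_rw [fun j => (h1 j).tsum_eq]
    have h4 : Summable fun j : ℕ => (x / (1 - y)) ^ j := by
      apply summable_geometric_of_lt_one
      · apply div_nonneg hx
        linarith
      · rw [div_lt_one (by linarith)]
        linarith
    refine (h4.mul_left (1 / (1 - y))).congr ?_
    intro j
    have : 1 - y ≠ 0 := by linarith
    rw [div_pow]
    field_simp
    ring
  · intro p
    positivity

lemma complex_sum {x y : ℂ} (hxy : ‖x‖ + ‖y‖ < 1) :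
    HasSum (fun p : ℕ × ℕ => ((p.1 + p.2).choose p.1 : ℂ) * (x ^ p.1 * y ^ p.2))
      (1 - (x + y))⁻¹ := by
  have hs : Summable fun p : ℕ × ℕ => ((p.1 + p.2).choose p.1 : ℂ) * (x ^ p.1 * y ^ p.2) := by
    have := real_sum (norm_nonneg x) (norm_nonneg y) hxy
    refine Summable.of_norm ?_
    refine this.congr ?_
    intro p
    simp
  have hy : ‖y‖ < 1 := by
    have := norm_nonneg x
    linarith
  have h1 : ∀ j : ℕ, HasSum (fun k : ℕ => ((j + k).choose j : ℂ) * (x ^ j * y ^ k))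
      (x ^ j * (1 / (1 - y) ^ (j + 1))) := by
    intro j
    have h2 := hasSum_choose_mul_geometric_of_norm_lt_one (𝕜 := ℂ) j (r := y) hy
    have h3 := h2.mul_left (x ^ j)
    refine h3.congr_fun ?_
    intro k
    rw [add_comm j k]
    ring
  have h2 := hs.hasSum.prod_fiberwise h1
  have hy1 : (1 - y) ≠ 0 := by
    intro h
    have : y = 1 := by linear_combination -h
    rw [this] at hy
    simp at hy
  have hlt : ‖x / (1 - y)‖ < 1 := by
    rw [norm_div, div_lt_one (norm_pos_iff.2 hy1)]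
    have : 1 - ‖y‖ ≤ ‖1 - y‖ := by
      have := norm_sub_norm_le (1:ℂ) y
      simpa using this
    linarith
  have h3 : HasSum (fun j : ℕ => x ^ j * (1 / (1 - y) ^ (j + 1)))
      ((1 / (1 - y)) * (1 - x / (1 - y))⁻¹) := by
    have h4 := (hasSum_geometric_of_norm_lt_one hlt).mul_left (1 / (1 - y))
    refine h4.congr_fun ?_
    intro j
    rw [div_pow]
    field_simp
    ring
  have h5 := h2.unique h3
  have h6 : (1 / (1 - y)) * (1 - x / (1 - y))⁻¹ = (1 - (x + y))⁻¹ := by
    have h7 : 1 - x / (1 - y) = (1 - (x + y)) / (1 - y) := by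
      field_simp
      ring
    rw [h7, inv_div]
    field_simp
  rw [← h6, ← h5]
  exact hs.hasSum

/-- the sum defining the reproducing kernel -/
lemma kernel_sum {x y : ℂ} (hxy : ‖x‖ + ‖y‖ < 1) :
    HasSum (fun α : Fin 2 → ℕ => (((wt α)⁻¹ : ℝ) : ℂ) * (x ^ α 0 * y ^ α 1))
      (1 - (x + y))⁻¹ := by
  have h := complex_sum hxy
  rw [← (finTwoArrowEquiv ℕ).hasSum_iff] at h
  refine h.congr_fun ?_
  intro α
  rw [wt_inv]
  simp

end Pool.Agent.K4H52.DA
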