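import Pool.Agent.K4H52.DA.Restr

set_option autoImplicit false
open MeasureTheory Filter Topology Set
open scoped ENNReal NNReal ComplexConjugate InnerProductSpace

namespace Pool.Agent.K4H52.DA

lemma hasCoeff_one : HasCoeff (1 : Ball 2 → ℂ) (fun α => if α = 0 then 1 else 0) := by
  constructor
  · apply summable_of_ne_finset_zero (s := {0})
    intro α hα
    rw [Finset.mem_singleton] at hα
    simp [hα]
  · intro z
    have h := hasSum_ite_eq (0 : Fin 2 → ℕ) (1:ℂ)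
    refine h.congr_fun ?_
    intro α
    by_cases hα : α = 0
    · simp [hα]
    · simp [hα]

lemma hasCoeff_zero : HasCoeff (0 : Ball 2 → ℂ) (fun _ => 0) := by
  constructor
  · simpa using (summable_zero : Summable fun _ : Fin 2 → ℕ => (0:ℝ))
  · intro z
    simpa using (hasSum_zero : HasSum (fun _ : Fin 2 → ℕ => (0:ℂ)) 0)

lemma mult_le_H {φ : Ball 2 → ℂ} (h : φ ∈ Mult 2) : φ ∈ HSpace 2 := by
  have := h 1 ⟨_, hasCoeff_one⟩
  rwa [mul_one] at this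

lemma one_mem_mult : (1 : Ball 2 → ℂ) ∈ Mult 2 := by
  intro f hf
  rwa [one_mul]

lemma mult_mul {φ ψ : Ball 2 → ℂ} (h : φ ∈ Mult 2) (h' : ψ ∈ Mult 2) : φ * ψ ∈ Mult 2 := by
  intro f hf
  rw [mul_assoc]
  exact h _ (h' _ hf)

lemma mult_pow {φ : Ball 2 → ℂ} (h : φ ∈ Mult 2) (n : ℕ) : φ ^ n ∈ Mult 2 := by
  induction n with
  | zero => rw [pow_zero]; exact one_mem_mult
  | succ n ih => rw [pow_succ]; exact mult_mul ih h

lemma self_mem_cyc {f : Ball 2 → ℂ} (h : f ∈ HSpace 2) : f ∈ Cyc f := by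
  refine ⟨h, fun ε hε => ⟨1, one_mem_mult, ?_⟩⟩
  rw [one_mul, sub_self]
  exact ⟨_, hasCoeff_zero, by simpa using hε⟩

lemma ff_mem_mult (ν : Measure ℝ) [IsProbabilityMeasure ν] {a s : ℝ} (ha : 0 < a) (hs : 0 < s)
    (has : a ^ 2 + s ^ 2 = 1) : ff ν a s ∈ Mult 2 :=
  ((contr_phi ha hs has).exp ν (phi_lt ha hs has)).mem_mult

theorem not_mem {ν : Measure ℝ} [IsProbabilityMeasure ν] (hν : ν (cantorSet)ᶜ = 0)
    {a s : ℝ} (ha : 0 < a) (hs : 0 < s)
    (has : a ^ 2 + s ^ 2 = 1) (n : ℕ) : (ff ν a s) ^ n ∉ Cyc ((ff ν a s) ^ (n + 1)) := by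
  rintro ⟨-, hcl⟩
  obtain ⟨φ, hφ, A, hA, hAε⟩ := hcl (s ^ 2 / 16) (by positivity)
  obtain ⟨Aφ, hAφ⟩ := mult_le_H hφ
  obtain ⟨cv, hcv, -, hv⟩ := restr_bound ha hs has hAφ
  obtain ⟨ch, hch, hchle, hh⟩ := restr_bound ha hs has hA
  set v := restr a s φ with hvdef
  set h := restr a s ((ff ν a s) ^ n - φ * (ff ν a s) ^ (n + 1)) with hhdef
  set S := Sf ν with hS
  set Cv : ℝ := ∑' j, ‖cv j‖ ^ 2 with hCv
  have hCv0 : 0 ≤ Cv := tsum_nonneg fun j => by positivity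
  have hheq : ∀ w : ℂ, ‖w‖ < 1 → h w = S w ^ n - v w * S w ^ (n + 1) := by
    intro w hw
    have e1 := restr_ff hs has ν hw
    rw [restr_eq hs has _ hw] at e1
    rw [hhdef, restr_eq hs has _ hw, hvdef, restr_eq hs has _ hw, hS, ← e1]
    rfl
  set η : ℝ := 1 / (16 * (Cv + 1)) with hη
  have hη0 : 0 < η := by positivity
  -- choose the radius
  have hD := tendsto_D hν (2 * n + 2)
  have hr0 : ∀ᶠ r : ℝ in 𝓝[<] 1, (0:ℝ) < r := by
    apply eventually_nhdsWithin_of_eventually_nhds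
    exact lt_mem_nhds one_pos
  have hsmall : 0 < (1 / 16) / (2 + 1 / (2 * η)) := by positivity
  have hr2 : ∀ᶠ r : ℝ in 𝓝[<] 1, r < 1 := eventually_nhdsWithin_of_forall fun r hr => hr
  obtain ⟨r, hr, hr1, hDr⟩ := (hr0.and (hr2.and (hD.eventually_lt_const hsmall))).exists
  have hr1' : r < 1 := hr1
  have hn : ∀ t, ‖(r : ℂ) * xi t‖ < 1 := fun t => by
    rw [norm_r_xi hr.le]
    exact hr1'
  have hcomp : ∀ g : ℂ → ℂ, (∀ w : ℂ, ‖w‖ < 1 → DifferentiableAt ℂ g w) →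
      Continuous fun t => g (r * xi t) := by
    intro g hg
    rw [continuous_iff_continuousAt]
    intro t
    exact ContinuousAt.comp (f := fun t => (r : ℂ) * xi t) (g := g) (hg _ (hn t)).continuousAt
      (continuous_const.mul continuous_xi).continuousAt
  have hmv : ∀ g : ℂ → ℂ, (∀ w : ℂ, ‖w‖ < 1 → DifferentiableAt ℂ g w) →
      ∫ t, g (r * xi t) ∂mm = g 0 := by
    intro g hg
    apply mean_value hr
    constructor
    · intro w hw
      have hw1 : ‖w‖ < r := by simpa using hw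
      exact (hg w (hw1.trans hr1')).differentiableWithinAt
    · rw [closure_ball _ hr.ne']
      intro w hw
      have hw1 : ‖w‖ ≤ r := by simpa using hw
      exact (hg w (hw1.trans_lt hr1')).continuousAt.continuousWithinAt
  have hSd : ∀ w : ℂ, ‖w‖ < 1 → DifferentiableAt ℂ S w := fun w hw => differentiableAt_Sf ν hw
  have hvd : ∀ w : ℂ, ‖w‖ < 1 → DifferentiableAt ℂ v w := fun w hw =>
    differentiableAt_of_hasSum hv hw
  have hhd : ∀ w : ℂ, ‖w‖ < 1 → DifferentiableAt ℂ h w := fun w hw =>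
    differentiableAt_of_hasSum hh hw
  have cS := hcomp S hSd
  have cv' := hcomp v hvd
  have ch' := hcomp h hhd
  have hint : ∀ {E : Type} [NormedAddCommGroup E] (g : ℝ → E), Continuous g → Integrable g mm := by
    intro E _ g hg
    unfold mm
    apply Integrable.smul_measure
    · exact (hg.integrableOn_Icc (a := 0) (b := 2 * Real.pi)).mono_set Ioc_subset_Icc_self
    · simp [Real.pi_pos]
  set σ : ℂ := S 0 with hσ
  obtain ⟨St, hSt⟩ : ∃ St : ℝ → ℂ, ∀ t, S (r * xi t) = St t := ⟨_, fun _ => rfl⟩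
  obtain ⟨vt, hvt⟩ : ∃ vt : ℝ → ℂ, ∀ t, v (r * xi t) = vt t := ⟨_, fun _ => rfl⟩
  obtain ⟨ht, hht⟩ : ∃ ht : ℝ → ℂ, ∀ t, h (r * xi t) = ht t := ⟨_, fun _ => rfl⟩
  simp_rw [hSt] at cS
  simp_rw [hvt] at cv'
  simp_rw [hht] at ch'
  have cS' : Continuous St := cS
  have cv2 : Continuous vt := cv'
  have ch2 : Continuous ht := ch'
  have mS := hmv S hSd
  have mv := hmv v hvd
  have mvS := hmv (fun w => v w * S w) (fun w hw => (hvd w hw).mul (hSd w hw))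
  simp_rw [hSt] at mS
  simp_rw [hvt] at mv
  simp_rw [hSt, hvt] at mvS
  -- the integral computed with the mean value property
  have hconjc : Continuous fun t => conj (St t) := Complex.continuous_conj.comp cS'
  have hI : ∫ t, ((1 - σ * conj (St t)) - vt t * St t + σ * vt t) ∂mm = 1 - σ * conj σ := by
    have i1 : Integrable (fun t => (1 - σ * conj (St t))) mm :=
      hint _ (by fun_prop)
    have i2 : Integrable (fun t => vt t * St t) mm := hint _ (by fun_prop)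
    have i3 : Integrable (fun t => σ * vt t) mm := hint _ (by fun_prop)
    have i4 : Integrable (fun t => σ * conj (St t)) mm := hint _ (by fun_prop)
    have i12 : Integrable (fun t => (1 - σ * conj (St t)) - vt t * St t) mm := i1.sub i2
    rw [integral_add i12 i3, integral_sub i1 i2, integral_sub (integrable_const _) i4,
      integral_const_mul, integral_const_mul, integral_conj, mS, mv, mvS]
    simp only [integral_const, probReal_univ, one_smul]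
    ring
  -- pointwise bound
  have hbound : ∀ t, ‖(1 - σ * conj (St t)) - vt t * St t + σ * vt t‖ ≤
      1 / 4 + 4 * ‖ht t‖ ^ 2 +
        (2 + 1 / (2 * η)) * (1 - ‖St t‖ ^ (2 * n + 2)) + 2 * η * ‖vt t‖ ^ 2 := by
    intro t
    rw [← hSt, ← hvt, ← hht]
    set x : ℂ := S (r * xi t) with hx
    set y : ℂ := v (r * xi t) with hy
    have hxn : ‖x‖ ≤ 1 := norm_Sf_le ν (hn t)
    have hσn : ‖σ‖ ≤ 1 := norm_Sf_le ν (by simp)
    have hhx : h (r * xi t) = x ^ n - y * x ^ (n + 1) := hheq _ (hn t)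
    have hconj : x * conj x = ((‖x‖ ^ 2 : ℝ) : ℂ) := by
      rw [← Complex.normSq_eq_norm_sq, Complex.mul_conj]
    have hp1 : x ^ n * conj x ^ n = ((‖x‖ ^ (2 * n) : ℝ) : ℂ) := by
      rw [← mul_pow, hconj, pow_mul]
      push_cast
      ring
    have hp2 : x ^ (n + 1) * conj x ^ (n + 1) = ((‖x‖ ^ (2 * n + 2) : ℝ) : ℂ) := by
      rw [← mul_pow, hconj, show 2 * n + 2 = 2 * (n + 1) by ring, pow_mul]
      push_cast
      ring
    have hid : (1 - σ * conj x) - y * x + σ * y =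
        h (r * xi t) * (conj x ^ n * (1 - σ * conj x)) +
        ((1 - ‖x‖ ^ (2 * n) : ℝ) : ℂ) * (1 - σ * conj x) -
        ((1 - ‖x‖ ^ (2 * n) : ℝ) : ℂ) * (y * x) +
        σ * (((1 - ‖x‖ ^ (2 * n + 2) : ℝ) : ℂ) * y) := by
      rw [hhx]
      push_cast at hp1 hp2 ⊢
      rw [← hp1, ← hp2]
      ring
    have hcx : ‖conj x‖ = ‖x‖ := RCLike.norm_conj x
    have hb1 : ‖1 - σ * conj x‖ ≤ 2 := by
      calc ‖1 - σ * conj x‖ ≤ ‖(1:ℂ)‖ + ‖σ * conj x‖ := norm_sub_le _ _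
        _ ≤ 1 + 1 := by
          rw [norm_one, norm_mul, hcx]
          have := mul_le_one₀ hσn (norm_nonneg _) hxn
          linarith
        _ = 2 := by norm_num
    have hd1 : 0 ≤ 1 - ‖x‖ ^ (2 * n) := by
      have := pow_le_one₀ (n := 2 * n) (norm_nonneg x) hxn
      linarith
    have hd2 : 1 - ‖x‖ ^ (2 * n) ≤ 1 - ‖x‖ ^ (2 * n + 2) := by
      have := pow_le_pow_of_le_one (norm_nonneg x) hxn (show 2 * n ≤ 2 * n + 2 by omega)
      linarith
    have hd3 : 1 - ‖x‖ ^ (2 * n + 2) ≤ 1 := by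
      have : 0 ≤ ‖x‖ ^ (2 * n + 2) := by positivity
      linarith
    set d : ℝ := 1 - ‖x‖ ^ (2 * n + 2) with hd
    set d1 : ℝ := 1 - ‖x‖ ^ (2 * n) with hd1'
    have t1 : ‖h (r * xi t) * (conj x ^ n * (1 - σ * conj x))‖ ≤ 2 * ‖h (r * xi t)‖ := by
      rw [norm_mul, norm_mul, norm_pow, hcx]
      have h1 : ‖x‖ ^ n ≤ 1 := pow_le_one₀ (norm_nonneg x) hxn
      have h2 : ‖x‖ ^ n * ‖1 - σ * conj x‖ ≤ 1 * 2 :=
        mul_le_mul h1 hb1 (norm_nonneg _) zero_le_one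
      nlinarith [norm_nonneg (h (r * xi t))]
    have t2 : ‖((d1 : ℝ) : ℂ) * (1 - σ * conj x)‖ ≤ 2 * d := by
      rw [norm_mul, Complex.norm_real, Real.norm_eq_abs, abs_of_nonneg hd1]
      nlinarith
    have t3 : ‖((d1 : ℝ) : ℂ) * (y * x)‖ ≤ d * ‖y‖ := by
      rw [norm_mul, norm_mul, Complex.norm_real, Real.norm_eq_abs, abs_of_nonneg hd1]
      have h1 : ‖y‖ * ‖x‖ ≤ ‖y‖ := mul_le_of_le_one_right (norm_nonneg _) hxn
      calc d1 * (‖y‖ * ‖x‖) ≤ d1 * ‖y‖ := mul_le_mul_of_nonneg_left h1 hd1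
        _ ≤ d * ‖y‖ := mul_le_mul_of_nonneg_right hd2 (norm_nonneg _)
    have t4 : ‖σ * (((d : ℝ) : ℂ) * y)‖ ≤ d * ‖y‖ := by
      rw [norm_mul, norm_mul, Complex.norm_real, Real.norm_eq_abs, abs_of_nonneg (hd1.trans hd2)]
      exact mul_le_of_le_one_left (by have := hd1.trans hd2; positivity) hσn
    have t5 : 2 * (d * ‖y‖) ≤ 2 * η * ‖y‖ ^ 2 + (1 / (2 * η)) * d := by
      have hd0 : 0 ≤ d := hd1.trans hd2
      have h1 : 2 * (d * ‖y‖) ≤ 2 * η * ‖y‖ ^ 2 + (1 / (2 * η)) * d ^ 2 := by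
        have h2 : 0 ≤ (2 * η * ‖y‖ - d) ^ 2 / (2 * η) := by positivity
        have h3 : (2 * η * ‖y‖ - d) ^ 2 / (2 * η) =
            2 * η * ‖y‖ ^ 2 - 2 * (d * ‖y‖) + (1 / (2 * η)) * d ^ 2 := by
          field_simp
          ring
        linarith
      have h2 : (1 / (2 * η)) * d ^ 2 ≤ (1 / (2 * η)) * d := by
        apply mul_le_mul_of_nonneg_left _ (by positivity)
        nlinarith
      linarith
    have t6 : 2 * ‖h (r * xi t)‖ ≤ 1 / 4 + 4 * ‖h (r * xi t)‖ ^ 2 := by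
      nlinarith [sq_nonneg (2 * ‖h (r * xi t)‖ - 1 / 2)]
    rw [hid]
    calc _ ≤ ‖h (r * xi t) * (conj x ^ n * (1 - σ * conj x))‖ +
          ‖((d1 : ℝ) : ℂ) * (1 - σ * conj x)‖ + ‖((d1 : ℝ) : ℂ) * (y * x)‖ +
          ‖σ * (((d : ℝ) : ℂ) * y)‖ := by
            refine (norm_add_le _ _).trans ?_
            gcongr
            refine (norm_sub_le _ _).trans ?_
            gcongr
            exact norm_add_le _ _
      _ ≤ 1 / 4 + 4 * ‖h (r * xi t)‖ ^ 2 + (2 + 1 / (2 * η)) * d + 2 * η * ‖y‖ ^ 2 := by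
            linarith
  have hle : ‖1 - σ * conj σ‖ ≤ ∫ t, (1 / 4 + 4 * ‖ht t‖ ^ 2 +
        (2 + 1 / (2 * η)) * (1 - ‖St t‖ ^ (2 * n + 2)) + 2 * η * ‖vt t‖ ^ 2) ∂mm := by
    rw [← hI]
    apply norm_integral_le_of_norm_le
    · apply hint
      fun_prop
    · exact Eventually.of_forall hbound
  have hval : ∫ t, (1 / 4 + 4 * ‖ht t‖ ^ 2 +
        (2 + 1 / (2 * η)) * (1 - ‖St t‖ ^ (2 * n + 2)) + 2 * η * ‖vt t‖ ^ 2) ∂mm =
      1 / 4 + 4 * (∫ t, ‖ht t‖ ^ 2 ∂mm) +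
      (2 + 1 / (2 * η)) * (∫ t, (1 - ‖St t‖ ^ (2 * n + 2)) ∂mm) +
      2 * η * ∫ t, ‖vt t‖ ^ 2 ∂mm := by
    have i1 : Integrable (fun t => 4 * ‖ht t‖ ^ 2) mm := hint _ (by fun_prop)
    have i2 : Integrable (fun t => (2 + 1 / (2 * η)) * (1 - ‖St t‖ ^ (2 * n + 2))) mm :=
      hint _ (by fun_prop)
    have i3 : Integrable (fun t => 2 * η * ‖vt t‖ ^ 2) mm := hint _ (by fun_prop)
    have i01 : Integrable (fun t => 1 / 4 + 4 * ‖ht t‖ ^ 2) mm := hint _ (by fun_prop)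
    have i012 : Integrable (fun t => 1 / 4 + 4 * ‖ht t‖ ^ 2 +
      (2 + 1 / (2 * η)) * (1 - ‖St t‖ ^ (2 * n + 2))) mm := hint _ (by fun_prop)
    rw [integral_add i012 i3, integral_add i01 i2, integral_add (integrable_const _) i1,
      integral_const_mul, integral_const_mul, integral_const_mul]
    simp
  rw [hval] at hle
  simp_rw [← hSt, ← hvt, ← hht] at hle
  have hh2 : ∫ t, ‖h (r * xi t)‖ ^ 2 ∂mm ≤ 1 / 16 := by
    refine (l2_bound hch hr.le hr1' hh).trans (hchle.trans ?_)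
    rw [div_le_iff₀ (by positivity)]
    linarith
  have hv2 : ∫ t, ‖v (r * xi t)‖ ^ 2 ∂mm ≤ Cv := l2_bound hcv hr.le hr1' hv
  have hD2 : (2 + 1 / (2 * η)) * (∫ t, (1 - ‖S (r * xi t)‖ ^ (2 * n + 2)) ∂mm) ≤ 1 / 16 := by
    have h2 : 0 < 2 + 1 / (2 * η) := by positivity
    have := (lt_div_iff₀' h2).1 hDr
    exact this.le
  have hv3 : 2 * η * ∫ t, ‖v (r * xi t)‖ ^ 2 ∂mm ≤ 1 / 8 := by
    calc 2 * η * ∫ t, ‖v (r * xi t)‖ ^ 2 ∂mm ≤ 2 * η * (Cv + 1) := by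
          apply mul_le_mul_of_nonneg_left _ (by positivity)
          linarith
      _ = 1 / 8 := by
          rw [hη]
          field_simp
          norm_num
  have hfin : ‖1 - σ * conj σ‖ ≤ 11 / 16 := by linarith
  have hσv : σ * conj σ = ((Real.exp (-1) ^ 2 : ℝ) : ℂ) := by
    rw [Complex.mul_conj, Complex.normSq_eq_norm_sq, hσ, hS, norm_Sf, Hf_zero]
    simp
  rw [hσv] at hfin
  have h6 : (1 : ℂ) - ((Real.exp (-1) ^ 2 : ℝ) : ℂ) = ((1 - Real.exp (-1) ^ 2 : ℝ) : ℂ) := by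
    push_cast
    ring
  rw [h6, Complex.norm_real, Real.norm_eq_abs] at hfin
  have h7 := (abs_le.1 hfin).2
  have h8 : Real.exp (-1) < 1 / 2 := by
    rw [Real.exp_neg, inv_lt_comm₀ (Real.exp_pos _) (by norm_num)]
    have := Real.exp_one_gt_d9
    norm_num at this ⊢
    linarith
  have h9 := Real.exp_pos (-1)
  nlinarith

theorem main : ∃ f : Ball 2 → ℂ, f ∈ Mult 2 ∧
    (∀ z : Fin 2 → ℂ, ∑ i, ‖z i‖ ^ 2 = 1 → IsOuter (slice f z)) ∧
    ∀ n : ℕ, Cyc (f ^ n) ≠ Cyc (f ^ (n + 1)) := by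
  obtain ⟨ν, hp, hat, hc⟩ := exists_measure
  have h1 : (0:ℝ) < 3 / 5 := by norm_num
  have h2 : (0:ℝ) < 4 / 5 := by norm_num
  have h3 : (3 / 5 : ℝ) ^ 2 + (4 / 5) ^ 2 = 1 := by norm_num
  refine ⟨ff ν (3 / 5) (4 / 5), ff_mem_mult ν h1 h2 h3, ?_, ?_⟩
  · intro z hz
    rw [Fin.sum_univ_two] at hz
    exact isOuter_slice h1 h2 h3 hz ν hat
  · intro n h
    apply not_mem hc h1 h2 h3 n
    rw [← h]
    exact self_mem_cyc (mult_le_H (mult_pow (ff_mem_mult ν h1 h2 h3) n))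

end Pool.Agent.K4H52.DA
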