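import Mathlib

set_option autoImplicit false
open MeasureTheory Filter Topology Set
open scoped ENNReal NNReal Pointwise

namespace Pool.Agent.K4H52.DA

theorem volume_cantor : volume cantorSet = 0 := by
  have h1 : (fun x : ℝ => x / 3) '' cantorSet = (3⁻¹ : ℝ) • cantorSet := by
    rw [← image_smul]
    congr 1
    funext x
    rw [smul_eq_mul]
    ring
  have h2 : (fun x : ℝ => (2 + x) / 3) '' cantorSet =
      (fun y : ℝ => 2 / 3 + y) '' ((3⁻¹ : ℝ) • cantorSet) := by
    rw [← image_smul, image_image]
    congr 1
    funext x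
    rw [smul_eq_mul]
    ring
  have h3 : volume ((3⁻¹ : ℝ) • cantorSet) = ENNReal.ofReal (3⁻¹) * volume cantorSet := by
    rw [Measure.addHaar_smul]
    simp
  have h4 : volume ((fun y : ℝ => 2 / 3 + y) '' ((3⁻¹ : ℝ) • cantorSet)) =
      ENNReal.ofReal (3⁻¹) * volume cantorSet := by
    rw [image_add_left, measure_preimage_add, h3]
  have h5 : volume cantorSet ≤ ENNReal.ofReal (3⁻¹) * volume cantorSet +
      ENNReal.ofReal (3⁻¹) * volume cantorSet := by
    conv_lhs => rw [cantorSet_eq_union_halves]
    refine (measure_union_le _ _).trans ?_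
    rw [h1, h2, h3, h4]
  have h6 : volume cantorSet ≠ ⊤ := by
    apply ne_top_of_le_ne_top _ (measure_mono cantorSet_subset_unitInterval)
    simp
  rw [← add_mul, ← ENNReal.ofReal_add (by norm_num) (by norm_num)] at h5
  by_contra h0
  have h7 : ENNReal.ofReal (3⁻¹ + 3⁻¹) * volume cantorSet < 1 * volume cantorSet := by
    apply ENNReal.mul_lt_mul_left h0 h6
    rw [← ENNReal.ofReal_one]
    exact (ENNReal.ofReal_lt_ofReal_iff (by norm_num)).2 (by norm_num)
  rw [one_mul] at h7
  exact absurd h5 (not_le.2 h7)

/-- There is a nonatomic probability measure on `ℝ` carried by the Cantor set. -/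
theorem exists_measure : ∃ ν : Measure ℝ, IsProbabilityMeasure ν ∧
    (∀ x, ν {x} = 0) ∧ ν (cantorSet)ᶜ = 0 := by
  have hc : ¬ Countable cantorSet := by
    rw [cantorSetEquivNatToBool.countable_iff]
    intro h
    obtain ⟨f, hf⟩ := exists_surjective_nat (ℕ → Bool)
    obtain ⟨n, hn⟩ := hf (fun n => !(f n n))
    have := congrFun hn n
    simp at this
  have hu : ¬ Countable (Icc (0:ℝ) 1) := by
    rw [countable_coe_iff]
    exact (Cardinal.Real.Icc_countable_iff.not).2 (by norm_num)
  haveI : StandardBorelSpace cantorSet := isClosed_cantorSet.measurableSet.standardBorel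
  haveI : StandardBorelSpace (Icc (0:ℝ) 1) := measurableSet_Icc.standardBorel
  let e : Icc (0:ℝ) 1 ≃ᵐ cantorSet := PolishSpace.measurableEquivOfNotCountable hu hc
  let g : Icc (0:ℝ) 1 → ℝ := fun x => (e x : ℝ)
  have hg : Measurable g := measurable_subtype_coe.comp e.measurable
  have hinj : Function.Injective g := Subtype.val_injective.comp e.injective
  let μ : Measure (Icc (0:ℝ) 1) := volume
  haveI : IsProbabilityMeasure μ := inferInstance
  refine ⟨μ.map g, Measure.isProbabilityMeasure_map hg.aemeasurable, ?_, ?_⟩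
  · intro x
    rw [Measure.map_apply hg (measurableSet_singleton x)]
    have hs : (g ⁻¹' {x}).Subsingleton := by
      intro a ha b hb
      exact hinj (ha.trans hb.symm)
    exact hs.measure_zero μ
  · rw [Measure.map_apply hg isClosed_cantorSet.measurableSet.compl]
    have : g ⁻¹' cantorSetᶜ = ∅ := by
      ext x
      simp only [mem_preimage, mem_compl_iff, mem_empty_iff_false, iff_false, not_not]
      exact (e x).2
    rw [this, measure_empty]

end Pool.Agent.K4H52.DA
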