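import Pool.Agent.K4H52.DA.Rep

set_option autoImplicit false
open MeasureTheory Filter Topology Set
open scoped ENNReal NNReal ComplexConjugate InnerProductSpace

namespace Pool.Agent.K4H52.DA

/-- Row contractivity of the two shifts, on the adjoint side. -/
lemma row_contr (s : Finset (Ball 2)) (e : Ball 2 → ℂ) :
    ‖∑ z ∈ s, (e z * conj (z.1 0)) • kv z‖ ^ 2 + ‖∑ z ∈ s, (e z * conj (z.1 1)) • kv z‖ ^ 2 ≤
      ‖∑ z ∈ s, e z • kv z‖ ^ 2 := by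
  have key : ∀ g : Ball 2 → ℂ, (‖∑ z ∈ s, (e z * conj (g z)) • kv z‖ ^ 2 : ℂ) =
      ∑ z ∈ s, ∑ w ∈ s, conj (e z) * e w * (g z * conj (g w)) * ⟪kv z, kv w⟫_ℂ := by
    intro g
    rw [← Complex.coe_algebraMap] 
    have := inner_self_eq_norm_sq_to_K (𝕜 := ℂ) (∑ z ∈ s, (e z * conj (g z)) • kv z)
    rw [show ((algebraMap ℝ ℂ) ‖∑ z ∈ s, (e z * conj (g z)) • kv z‖) ^ 2 =
      ⟪∑ z ∈ s, (e z * conj (g z)) • kv z, ∑ z ∈ s, (e z * conj (g z)) • kv z⟫_ℂ from this.symm]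
    rw [sum_inner]
    refine Finset.sum_congr rfl fun z _ => ?_
    rw [inner_sum]
    refine Finset.sum_congr rfl fun w _ => ?_
    rw [inner_smul_left, inner_smul_right, map_mul, Complex.conj_conj]
    ring
  have k0 := key (fun z => z.1 0)
  have k1 := key (fun z => z.1 1)
  have k2 := key (fun _ => 1)
  simp only [map_one, mul_one] at k2
  have h3 : (∑ z ∈ s, ∑ w ∈ s, conj (e z) * e w * ⟪kv z, kv w⟫_ℂ) -
      (∑ z ∈ s, ∑ w ∈ s, conj (e z) * e w * (z.1 0 * conj (w.1 0)) * ⟪kv z, kv w⟫_ℂ) -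
      (∑ z ∈ s, ∑ w ∈ s, conj (e z) * e w * (z.1 1 * conj (w.1 1)) * ⟪kv z, kv w⟫_ℂ) =
      ((‖∑ z ∈ s, e z‖ ^ 2 : ℝ) : ℂ) := by
    rw [← Finset.sum_sub_distrib, ← Finset.sum_sub_distrib]
    have h4 : ((‖∑ z ∈ s, e z‖ ^ 2 : ℝ) : ℂ) = ∑ z ∈ s, ∑ w ∈ s, conj (e z) * e w := by
      rw [← Complex.normSq_eq_norm_sq, Complex.normSq_eq_conj_mul_self, map_sum,
        Finset.sum_mul_sum]
    rw [h4]
    refine Finset.sum_congr rfl fun z _ => ?_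
    rw [← Finset.sum_sub_distrib, ← Finset.sum_sub_distrib]
    refine Finset.sum_congr rfl fun w _ => ?_
    rw [inner_kv]
    have hne : (1 - (z.1 0 * conj (w.1 0) + z.1 1 * conj (w.1 1))) ≠ 0 := by
      intro h
      have h1 : z.1 0 * conj (w.1 0) + z.1 1 * conj (w.1 1) = 1 := by linear_combination -h
      have h2 := pair_lt z w
      have h3 := norm_add_le (z.1 0 * conj (w.1 0)) (z.1 1 * conj (w.1 1))
      rw [h1, norm_one] at h3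
      linarith
    field_simp
    ring
  rw [← k0, ← k1, ← k2] at h3
  have h4 : ‖∑ z ∈ s, e z • kv z‖ ^ 2 - ‖∑ z ∈ s, (e z * conj (z.1 0)) • kv z‖ ^ 2 -
      ‖∑ z ∈ s, (e z * conj (z.1 1)) • kv z‖ ^ 2 = ‖∑ z ∈ s, e z‖ ^ 2 := by
    exact_mod_cast h3
  have := sq_nonneg ‖∑ z ∈ s, e z‖
  linarith

/-- the inner map `φ(z) = s z₁ / (1 - a z₂)` -/
noncomputable def phi (a s : ℝ) (z : Ball 2) : ℂ := s * z.1 0 / (1 - a * z.1 1)

lemma one_sub_ne {a : ℝ} (ha : 0 < a) (ha1 : a < 1) {w : ℂ} (hw : ‖w‖ ≤ 1) : 1 - (a : ℂ) * w ≠ 0 := by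
  intro h
  have h1 : (a : ℂ) * w = 1 := by linear_combination -h
  have h2 : ‖(a : ℂ) * w‖ = 1 := by rw [h1, norm_one]
  rw [norm_mul, Complex.norm_real, Real.norm_eq_abs, abs_of_pos ha] at h2
  nlinarith [norm_nonneg w]

lemma ball_le (z : Ball 2) (i : Fin 2) : ‖z.1 i‖ ≤ 1 := by
  have := ball_lt z
  fin_cases i
  · simp only [Fin.zero_eta, Fin.isValue]
    nlinarith [norm_nonneg (z.1 0), sq_nonneg ‖z.1 1‖]
  · simp only [Fin.mk_one, Fin.isValue]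
    nlinarith [norm_nonneg (z.1 1), sq_nonneg ‖z.1 0‖]

lemma contr_phi {a s : ℝ} (ha : 0 < a) (hs : 0 < s) (has : a ^ 2 + s ^ 2 = 1) :
    Contr kv (phi a s) := by
  intro F c
  have ha1 : a < 1 := by nlinarith
  set e : Ball 2 → ℂ := fun z => c z / conj (1 - (a : ℂ) * z.1 1) with he
  have hne : ∀ z : Ball 2, (1 - (a : ℂ) * conj (z.1 1)) ≠ 0 := by
    intro z
    apply one_sub_ne ha ha1
    rw [RCLike.norm_conj]
    exact ball_le z 1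
  set Y : L2 := ∑ z ∈ F, e z • kv z with hY
  set B0 : L2 := ∑ z ∈ F, (e z * conj (z.1 0)) • kv z with hB0
  set B1 : L2 := ∑ z ∈ F, (e z * conj (z.1 1)) • kv z with hB1
  have hrow : ‖B0‖ ^ 2 + ‖B1‖ ^ 2 ≤ ‖Y‖ ^ 2 := row_contr F e
  have h1 : ∑ z ∈ F, c z • kv z = Y - (a : ℂ) • B1 := by
    rw [hY, hB1, Finset.smul_sum, ← Finset.sum_sub_distrib]
    refine Finset.sum_congr rfl fun z _ => ?_
    rw [smul_smul, ← sub_smul]
    congr 1
    have := hne z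
    simp only [he, map_sub, map_one, map_mul, Complex.conj_ofReal]
    field_simp
  have h2 : ∑ z ∈ F, (c z * conj (phi a s z)) • kv z = (s : ℂ) • B0 := by
    rw [hB0, Finset.smul_sum]
    refine Finset.sum_congr rfl fun z _ => ?_
    rw [smul_smul]
    congr 1
    have := hne z
    unfold phi
    simp only [he, map_sub, map_one, map_mul, Complex.conj_ofReal, map_div₀]
    field_simp
  rw [h1, h2]
  have h3 : ‖Y - (a : ℂ) • B1‖ ^ 2 = ‖Y‖ ^ 2 - 2 * a * (⟪Y, B1⟫_ℂ).re + a ^ 2 * ‖B1‖ ^ 2 := by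
    rw [@norm_sub_sq ℂ, inner_smul_right, norm_smul, Complex.norm_real, Real.norm_eq_abs,
      mul_pow, sq_abs]
    simp
    ring
  have h4 : ‖(a : ℂ) • Y - B1‖ ^ 2 = a ^ 2 * ‖Y‖ ^ 2 - 2 * a * (⟪Y, B1⟫_ℂ).re + ‖B1‖ ^ 2 := by
    rw [@norm_sub_sq ℂ, inner_smul_left, norm_smul, Complex.norm_real, Real.norm_eq_abs,
      mul_pow, sq_abs]
    simp
    ring
  have h5 : ‖(s : ℂ) • B0‖ ^ 2 = s ^ 2 * ‖B0‖ ^ 2 := by
    rw [norm_smul, Complex.norm_real, Real.norm_eq_abs, mul_pow, sq_abs]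
  have h6 : ‖(s : ℂ) • B0‖ ^ 2 ≤ ‖Y - (a : ℂ) • B1‖ ^ 2 := by
    rw [h3, h5]
    have h7 := sq_nonneg ‖(a : ℂ) • Y - B1‖
    rw [h4] at h7
    have h8 : s ^ 2 * ‖B0‖ ^ 2 ≤ s ^ 2 * (‖Y‖ ^ 2 - ‖B1‖ ^ 2) := by
      apply mul_le_mul_of_nonneg_left _ (sq_nonneg s)
      linarith
    have hs2 : s ^ 2 = 1 - a ^ 2 := by linarith
    rw [hs2] at h8 ⊢
    nlinarith
  exact abs_le_of_sq_le_sq' h6 (norm_nonneg _) |>.2

/-- the key inequality on the closed ball -/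
lemma phi_key {a s : ℝ} (has : a ^ 2 + s ^ 2 = 1) (u w : ℂ) :
    ‖1 - (a : ℂ) * w‖ ^ 2 - ‖(s : ℂ) * u‖ ^ 2 =
      ‖w - a‖ ^ 2 + s ^ 2 * (1 - ‖u‖ ^ 2 - ‖w‖ ^ 2) := by
  rw [norm_mul, mul_pow, ← Complex.normSq_eq_norm_sq, ← Complex.normSq_eq_norm_sq,
    ← Complex.normSq_eq_norm_sq, ← Complex.normSq_eq_norm_sq, ← Complex.normSq_eq_norm_sq]
  simp only [Complex.normSq_apply, Complex.sub_re, Complex.sub_im, Complex.mul_re, Complex.mul_im,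
    Complex.ofReal_re, Complex.ofReal_im, Complex.one_re, Complex.one_im]
  linear_combination -(1 - w.re * w.re - w.im * w.im) * has

lemma phi_lt {a s : ℝ} (ha : 0 < a) (hs : 0 < s) (has : a ^ 2 + s ^ 2 = 1) (z : Ball 2) :
    ‖phi a s z‖ < 1 := by
  have ha1 : a < 1 := by nlinarith
  have hne := one_sub_ne ha ha1 (ball_le z 1)
  unfold phi
  rw [norm_div, div_lt_one (norm_pos_iff.2 hne)]
  have h := phi_key has (z.1 0) (z.1 1)
  have h2 := ball_lt z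
  have h3 : ‖(s : ℂ) * z.1 0‖ ^ 2 < ‖1 - (a : ℂ) * z.1 1‖ ^ 2 := by
    have : 0 < s ^ 2 * (1 - ‖z.1 0‖ ^ 2 - ‖z.1 1‖ ^ 2) := by
      apply mul_pos (by positivity)
      linarith
    nlinarith [sq_nonneg ‖z.1 1 - a‖]
  exact lt_of_pow_lt_pow_left₀ 2 (norm_nonneg _) h3

end Pool.Agent.K4H52.DA
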