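import Pool.Agent.K4H52.DA.Circ
import Pool.Agent.K4H52.DA.Phi

set_option autoImplicit false
open MeasureTheory Filter Topology Set
open scoped ENNReal NNReal ComplexConjugate InnerProductSpace

namespace Pool.Agent.K4H52.DA

/-- the slice of `φ` -/
noncomputable def psi (a s : ℝ) (z : Fin 2 → ℂ) (w : ℂ) : ℂ := s * (w * z 0) / (1 - a * (w * z 1))

section
variable {a s : ℝ} (ha : 0 < a) (hs : 0 < s) (has : a ^ 2 + s ^ 2 = 1) {z : Fin 2 → ℂ}
  (hz : ‖z 0‖ ^ 2 + ‖z 1‖ ^ 2 = 1)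

include hz in
lemma z1_le : ‖z 1‖ ≤ 1 := by
  nlinarith [norm_nonneg (z 1), sq_nonneg ‖z 0‖]

include ha hs has hz in
lemma den_ne {w : ℂ} (hw : ‖w‖ ≤ 1) : 1 - (a : ℂ) * (w * z 1) ≠ 0 := by
  have ha1 : a < 1 := by nlinarith
  apply one_sub_ne ha ha1
  rw [norm_mul]
  exact mul_le_one₀ hw (norm_nonneg _) (z1_le hz)

include ha hs has hz in
lemma psi_diff {w : ℂ} (hw : ‖w‖ ≤ 1) : DifferentiableAt ℂ (psi a s z) w := by
  unfold psi
  apply DifferentiableAt.div
  · fun_prop
  · fun_prop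
  · exact den_ne ha hs has hz hw

include ha hs has hz in
lemma psi_key {w : ℂ} (hw : ‖w‖ ≤ 1) (h : w * z 1 ≠ a ∨ ‖w‖ < 1) : ‖psi a s z w‖ < 1 := by
  have hne := den_ne ha hs has hz hw
  unfold psi
  rw [norm_div, div_lt_one (norm_pos_iff.2 hne)]
  have h1 := phi_key has (w * z 0) (w * z 1)
  have h2 : 1 - ‖w * z 0‖ ^ 2 - ‖w * z 1‖ ^ 2 = 1 - ‖w‖ ^ 2 := by
    rw [norm_mul, norm_mul]
    linear_combination -‖w‖ ^ 2 * hz
  rw [h2] at h1
  have h3 : 0 < ‖w * z 1 - a‖ ^ 2 + s ^ 2 * (1 - ‖w‖ ^ 2) := by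
    have h5 : 0 ≤ 1 - ‖w‖ ^ 2 := by nlinarith [norm_nonneg w]
    rcases h with h | h
    · have h4 : 0 < ‖w * z 1 - a‖ := norm_pos_iff.2 (sub_ne_zero.2 h)
      positivity
    · have h6 : 0 < 1 - ‖w‖ ^ 2 := by nlinarith [norm_nonneg w]
      positivity
  have h4 : ‖(s : ℂ) * (w * z 0)‖ ^ 2 < ‖1 - (a : ℂ) * (w * z 1)‖ ^ 2 := by linarith
  exact lt_of_pow_lt_pow_left₀ 2 (norm_nonneg _) h4

lemma psi_zero : psi a s z 0 = 0 := by
  unfold psi
  simp

/-- exceptional angles -/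
def Ex (a : ℝ) (z : Fin 2 → ℂ) : Set ℝ := {t | xi t * z 1 = a}

include ha in
lemma Ex_countable : (Ex a z).Countable := by
  by_cases h : z 1 = 0
  · have : Ex a z = ∅ := by
      ext t
      unfold Ex
      simp only [mem_setOf_eq, mem_empty_iff_false, iff_false]
      rw [h, mul_zero]
      intro h1
      have : (a : ℂ) ≠ 0 := Complex.ofReal_ne_zero.2 ha.ne'
      exact this h1.symm
    rw [this]
    exact countable_empty
  · refine (countable_xi_eq ((a : ℂ) / z 1)).mono ?_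
    intro t ht
    have ht' : xi t * z 1 = a := ht
    change xi t = a / z 1
    rw [← ht']
    field_simp

include ha in
lemma ae_Ex : ∀ᵐ t ∂mm, t ∉ Ex a z := by
  apply ae_mm
  exact (Ex_countable ha).ae_notMem volume

include ha hs has hz in
lemma psi_xi_lt {t : ℝ} (ht : t ∉ Ex a z) : ‖psi a s z (xi t)‖ < 1 :=
  psi_key ha hs has hz (by rw [norm_xi]) (Or.inl ht)

/-- exceptional `θ` -/
def Bad (a s : ℝ) (z : Fin 2 → ℂ) : Set ℝ := {θ | xi θ = psi a s z (a / z 1)}

include ha hs has hz in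
lemma xi_ne_psi {θ : ℝ} (hθ : θ ∉ Bad a s z) {w : ℂ} (hw : ‖w‖ ≤ 1) :
    xi θ - psi a s z w ≠ 0 := by
  intro h
  rw [sub_eq_zero] at h
  by_cases h1 : w * z 1 = a
  · have h2 : z 1 ≠ 0 := by
      intro h3
      rw [h3, mul_zero] at h1
      have : (a : ℂ) ≠ 0 := Complex.ofReal_ne_zero.2 ha.ne'
      exact this h1.symm
    have h3 : w = a / z 1 := by
      rw [← h1]
      field_simp
    rw [h3] at h
    exact hθ h
  · have h2 := psi_key ha hs has hz hw (Or.inl h1)
    rw [← h, norm_xi] at h2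
    exact lt_irrefl _ h2

include ha hs has hz in
lemma mean_one {θ : ℝ} (hθ : θ ∉ Bad a s z) :
    ∫ t, herg θ (psi a s z (xi t)) ∂mm = 1 := by
  have hdiff : ∀ w : ℂ, ‖w‖ ≤ 1 → DifferentiableAt ℂ (fun w => herg θ (psi a s z w)) w := by
    intro w hw
    exact (hasDerivAt_herg (xi_ne_psi ha hs has hz hθ hw)).differentiableAt.comp w
      (psi_diff ha hs has hz hw)
  have h1 : DiffContOnCl ℂ (fun w => herg θ (psi a s z w)) (Metric.ball 0 1) := by
    constructor
    · intro w hw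
      exact (hdiff w (by simpa using (Metric.mem_ball.1 hw).le)).differentiableWithinAt
    · rw [closure_ball _ one_ne_zero]
      intro w hw
      exact (hdiff w (by simpa using hw)).continuousAt.continuousWithinAt
  have h2 := mean_value one_pos h1
  simp only [Complex.ofReal_one, one_mul] at h2
  rw [h2, psi_zero, herg_zero]

lemma measurable_q : Measurable fun p : ℝ × ℝ => herg p.2 (psi a s z (xi p.1)) := by
  unfold herg psi
  have h1 : Measurable fun p : ℝ × ℝ => xi p.1 := continuous_xi.measurable.comp measurable_fst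
  have h2 : Measurable fun p : ℝ × ℝ => xi p.2 := continuous_xi.measurable.comp measurable_snd
  fun_prop

include ha hs has hz in
lemma integrable_q (ν : Measure ℝ) [IsProbabilityMeasure ν] (hν : ∀ x, ν {x} = 0) :
    Integrable (fun p : ℝ × ℝ => (herg p.2 (psi a s z (xi p.1))).re) (mm.prod ν) ∧
    ∫ p, (herg p.2 (psi a s z (xi p.1))).re ∂(mm.prod ν) = 1 := by
  haveI : NullSingletonClass ν := ⟨hν⟩
  have hbad : ∀ᵐ θ ∂ν, θ ∉ Bad a s z := (countable_xi_eq _).ae_notMem ν
  have hcont : ∀ θ, θ ∉ Bad a s z → Continuous fun t => herg θ (psi a s z (xi t)) := by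
    intro θ hθ
    rw [continuous_iff_continuousAt]
    intro t
    have h1 : ‖xi t‖ ≤ 1 := by rw [norm_xi]
    have h2 : ContinuousAt (fun w => herg θ (psi a s z w)) (xi t) :=
      ((hasDerivAt_herg (xi_ne_psi ha hs has hz hθ h1)).differentiableAt.comp (xi t)
      (psi_diff ha hs has hz h1)).continuousAt
    exact ContinuousAt.comp (f := xi) (g := fun w => herg θ (psi a s z w)) h2
      continuous_xi.continuousAt
  have hint : ∀ θ, θ ∉ Bad a s z → Integrable (fun t => herg θ (psi a s z (xi t))) mm := by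
    intro θ hθ
    have h1 := (hcont θ hθ)
    unfold mm
    apply Integrable.smul_measure
    · exact (h1.integrableOn_Icc (a := 0) (b := 2 * Real.pi)).mono_set Ioc_subset_Icc_self
    · simp [Real.pi_pos]
  have hnn : ∀ t, t ∉ Ex a z → ∀ θ, 0 ≤ (herg θ (psi a s z (xi t))).re := fun t ht θ =>
    herg_re_nonneg (psi_xi_lt ha hs has hz ht).le θ
  have hone : ∀ θ, θ ∉ Bad a s z → ∫ t, (herg θ (psi a s z (xi t))).re ∂mm = 1 := by
    intro θ hθ
    have h1 := integral_re (hint θ hθ)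
    rw [mean_one ha hs has hz hθ] at h1
    simpa using h1
  have hm : AEStronglyMeasurable (fun p : ℝ × ℝ => (herg p.2 (psi a s z (xi p.1))).re)
      (mm.prod ν) := (Complex.measurable_re.comp measurable_q).aestronglyMeasurable
  have hI : Integrable (fun p : ℝ × ℝ => (herg p.2 (psi a s z (xi p.1))).re) (mm.prod ν) := by
    rw [integrable_prod_iff' hm]
    refine ⟨?_, ?_⟩
    · filter_upwards [hbad] with θ hθ
      exact (hint θ hθ).re
    · have h1 : (fun _ => (1:ℝ)) =ᵐ[ν] fun θ => ∫ t, ‖(herg θ (psi a s z (xi t))).re‖ ∂mm := by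
        filter_upwards [hbad] with θ hθ
        rw [← hone θ hθ]
        apply integral_congr_ae
        filter_upwards [ae_Ex (z := z) ha] with t ht
        rw [Real.norm_eq_abs, abs_of_nonneg (hnn t ht θ)]
      exact (integrable_const _).congr h1
  refine ⟨hI, ?_⟩
  rw [integral_prod_symm _ hI]
  have h2 : ∫ θ, ∫ t, (herg θ (psi a s z (xi t))).re ∂mm ∂ν = ∫ θ, (1:ℝ) ∂ν := by
    apply integral_congr_ae
    filter_upwards [hbad] with θ hθ
    exact hone θ hθ
  rw [h2]
  simp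

/-- The function of the main theorem. -/
noncomputable def ff (ν : Measure ℝ) (a s : ℝ) : Ball 2 → ℂ := fun z => Sf ν (phi a s z)

include hz in
lemma ball_iff (w : ℂ) : ∑ i, ‖w * z i‖ ^ 2 < 1 ↔ ‖w‖ < 1 := by
  rw [Fin.sum_univ_two, norm_mul, norm_mul]
  have h : (‖w‖ * ‖z 0‖) ^ 2 + (‖w‖ * ‖z 1‖) ^ 2 = ‖w‖ ^ 2 := by
    linear_combination ‖w‖ ^ 2 * hz
  rw [h, sq_lt_one_iff₀ (norm_nonneg w)]

include hz in
lemma slice_eq (ν : Measure ℝ) {w : ℂ} (hw : ‖w‖ < 1) :
    slice (ff ν a s) z w = Sf ν (psi a s z w) := by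
  unfold slice
  rw [dif_pos ((ball_iff hz w).2 hw)]
  rfl

include ha hs has hz in
theorem isOuter_slice (ν : Measure ℝ) [IsProbabilityMeasure ν] (hν : ∀ x, ν {x} = 0) :
    IsOuter (slice (ff ν a s) z) := by
  have hdiff : ∀ w : ℂ, ‖w‖ ≤ 1 → ‖psi a s z w‖ < 1 →
      DifferentiableAt ℂ (fun w => Sf ν (psi a s z w)) w := fun w hw h1 =>
    (differentiableAt_Sf ν h1).comp w (psi_diff ha hs has hz hw)
  have hlt : ∀ w : ℂ, ‖w‖ < 1 → ‖psi a s z w‖ < 1 := fun w hw =>
    psi_key ha hs has hz hw.le (Or.inr hw)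
  refine ⟨?_, ⟨1, ?_⟩, ?_, fun t => Sf ν (psi a s z (xi t)), ?_, ?_, ?_⟩
  · have h1 : DifferentiableOn ℂ (fun w => Sf ν (psi a s z w)) (Metric.ball 0 1) := by
      intro w hw
      have hw1 : ‖w‖ < 1 := by simpa using hw
      exact (hdiff w hw1.le (hlt w hw1)).differentiableWithinAt
    refine h1.congr ?_
    intro w hw
    exact slice_eq hz ν (by simpa using hw)
  · intro w hw
    have hw1 : ‖w‖ < 1 := by simpa using hw
    rw [slice_eq hz ν hw1]
    exact norm_Sf_le ν (hlt w hw1)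
  · rw [slice_eq hz ν (by simp)]
    exact Sf_ne_zero _ _
  · have hae : ∀ᵐ t : ℝ, t ∉ Ex a z := (Ex_countable ha).ae_notMem volume
    filter_upwards [hae] with t ht
    refine ⟨?_, Sf_ne_zero _ _⟩
    have h1 : ContinuousAt (fun w => Sf ν (psi a s z w)) (xi t) :=
      (hdiff (xi t) (by rw [norm_xi]) (psi_xi_lt ha hs has hz ht)).continuousAt
    have h2 : Tendsto (fun r : ℝ => (r : ℂ) * xi t) (𝓝[<] 1) (𝓝 (xi t)) := by
      have h3 : Tendsto (fun r : ℝ => (r : ℂ) * xi t) (𝓝 1) (𝓝 (((1:ℝ) : ℂ) * xi t)) := by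
        apply Continuous.tendsto
        fun_prop
      rw [Complex.ofReal_one, one_mul] at h3
      exact h3.mono_left nhdsWithin_le_nhds
    have h4 := h1.tendsto.comp h2
    refine h4.congr' ?_
    have h1 : ∀ᶠ r : ℝ in 𝓝[<] 1, (0:ℝ) < r := by
      apply eventually_nhdsWithin_of_eventually_nhds
      exact lt_mem_nhds one_pos
    filter_upwards [h1, self_mem_nhdsWithin] with r hr hr1
    change Sf ν (psi a s z (r * xi t)) = slice (ff ν a s) z (r * xi t)
    rw [slice_eq hz ν]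
    rw [norm_r_xi hr.le]
    exact hr1
  · obtain ⟨hI, -⟩ := integrable_q ha hs has hz ν hν
    have h1 := hI.integral_prod_left
    have h2 : Integrable (fun t => Real.log ‖Sf ν (psi a s z (xi t))‖) mm := by
      refine h1.neg.congr ?_
      filter_upwards [ae_Ex (z := z) ha] with t ht
      rw [norm_Sf, Real.log_exp, Hf_re ν (psi_xi_lt ha hs has hz ht)]
      rfl
    unfold mm at h2
    rw [integrable_smul_measure] at h2
    · exact h2
    · exact ENNReal.inv_ne_zero.2 ENNReal.ofReal_ne_top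
    · simp [Real.pi_pos]
  · obtain ⟨hI, hI1⟩ := integrable_q ha hs has hz ν hν
    have h1 : ∫ t, Real.log ‖Sf ν (psi a s z (xi t))‖ ∂mm = -1 := by
      rw [← hI1, integral_prod _ hI, ← integral_neg]
      apply integral_congr_ae
      filter_upwards [ae_Ex (z := z) ha] with t ht
      rw [norm_Sf, Real.log_exp, Hf_re ν (psi_xi_lt ha hs has hz ht)]
    rw [integral_mm, smul_eq_mul] at h1
    rw [h1, slice_eq hz ν (by simp), psi_zero, norm_Sf, Hf_zero]
    simp

end

end Pool.Agent.K4H52.DA
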