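import Pool.Agent.K4H52.DA.Ker

set_option autoImplicit false
open MeasureTheory Filter Topology Set
open scoped ENNReal NNReal ComplexConjugate InnerProductSpace

namespace Pool.Agent.K4H52.DA

abbrev L2 : Type := lp (fun _ : Fin 2 → ℕ => ℂ) 2

lemma memL2_iff {u : (Fin 2 → ℕ) → ℂ} :
    Memℓp (E := fun _ : Fin 2 → ℕ => ℂ) u 2 ↔ Summable fun α => ‖u α‖ ^ 2 := by
  rw [memℓp_gen_iff (by simp)]
  simp

noncomputable def kfun (z : Ball 2) : (Fin 2 → ℕ) → ℂ :=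
  fun α => conj (∏ i, z.1 i ^ α i) * (((√(wt α))⁻¹ : ℝ) : ℂ)

lemma ball_lt (z : Ball 2) : ‖z.1 0‖ ^ 2 + ‖z.1 1‖ ^ 2 < 1 := by
  have := z.2
  rwa [Fin.sum_univ_two] at this

lemma pair_lt (z w : Ball 2) :
    ‖z.1 0 * conj (w.1 0)‖ + ‖z.1 1 * conj (w.1 1)‖ < 1 := by
  have h1 := ball_lt z
  have h2 := ball_lt w
  rw [norm_mul, norm_mul, RCLike.norm_conj, RCLike.norm_conj]
  nlinarith [sq_nonneg (‖z.1 0‖ - ‖w.1 0‖), sq_nonneg (‖z.1 1‖ - ‖w.1 1‖)]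

lemma kfun_mul (z w : Ball 2) (α : Fin 2 → ℕ) :
    conj (kfun z α) * kfun w α =
      (((wt α)⁻¹ : ℝ) : ℂ) * ((z.1 0 * conj (w.1 0)) ^ α 0 * (z.1 1 * conj (w.1 1)) ^ α 1) := by
  unfold kfun
  rw [map_mul, Complex.conj_conj, Complex.conj_ofReal, Fin.prod_univ_two, Fin.prod_univ_two]
  have h : (((wt α)⁻¹ : ℝ) : ℂ) = (((√(wt α))⁻¹ : ℝ) : ℂ) * (((√(wt α))⁻¹ : ℝ) : ℂ) := by
    rw [← Complex.ofReal_mul, ← mul_inv, Real.mul_self_sqrt (wt_pos α).le]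
  rw [h, map_mul, map_pow, map_pow, mul_pow, mul_pow]
  ring

lemma kfun_mem (z : Ball 2) : Memℓp (E := fun _ : Fin 2 → ℕ => ℂ) (kfun z) 2 := by
  rw [memL2_iff]
  have h := (kernel_sum (pair_lt z z)).summable.norm
  refine h.congr ?_
  intro α
  rw [← kfun_mul, norm_mul, RCLike.norm_conj, sq]

/-- The (normalised coefficient vector of the) reproducing kernel at `z`. -/
noncomputable def kv (z : Ball 2) : L2 := ⟨kfun z, kfun_mem z⟩

lemma inner_kv (z w : Ball 2) :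
    ⟪kv z, kv w⟫_ℂ = (1 - (z.1 0 * conj (w.1 0) + z.1 1 * conj (w.1 1)))⁻¹ := by
  have h := lp.hasSum_inner (𝕜 := ℂ) (kv z) (kv w)
  refine h.unique ?_
  refine (kernel_sum (pair_lt z w)).congr_fun ?_
  intro α
  rw [← kfun_mul]
  rw [RCLike.inner_apply]
  change kfun w α * conj (kfun z α) = _
  ring

lemma HasCoeff.rep {f : Ball 2 → ℂ} {a : (Fin 2 → ℕ) → ℂ} (h : HasCoeff f a) :
    ∃ u : L2, ∀ z, ⟪kv z, u⟫_ℂ = f z := by
  have hm : Memℓp (E := fun _ : Fin 2 → ℕ => ℂ) (fun α => (√(wt α) : ℂ) * a α) 2 := by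
    rw [memL2_iff]
    refine h.summable.congr ?_
    intro α
    rw [norm_mul, mul_pow, Complex.norm_real, Real.norm_eq_abs, sq_abs,
      Real.sq_sqrt (wt_pos α).le]
  refine ⟨⟨_, hm⟩, fun z => ?_⟩
  refine (lp.hasSum_inner (𝕜 := ℂ) (kv z) _).unique ?_
  refine (h.hasSum z).congr_fun ?_
  intro α
  rw [RCLike.inner_apply]
  change ((√(wt α) : ℂ) * a α) * conj (kfun z α) = _
  unfold kfun
  rw [map_mul, Complex.conj_conj, Complex.conj_ofReal, Complex.ofReal_inv]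
  have : (√(wt α) : ℂ) ≠ 0 := by
    rw [Complex.ofReal_ne_zero]
    exact (Real.sqrt_pos.2 (wt_pos α)).ne'
  field_simp

lemma HasCoeff.of_rep {f : Ball 2 → ℂ} {u : L2} (h : ∀ z, ⟪kv z, u⟫_ℂ = f z) :
    HasCoeff f (fun α => (((√(wt α))⁻¹ : ℝ) : ℂ) * u α) := by
  constructor
  · have h1 := memL2_iff.1 (lp.memℓp u)
    refine h1.congr ?_
    intro α
    rw [norm_mul, mul_pow, Complex.norm_real, Real.norm_eq_abs, sq_abs, inv_pow,
      Real.sq_sqrt (wt_pos α).le]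
    have := (wt_pos α).ne'
    field_simp
  · intro z
    rw [← h z]
    refine (lp.hasSum_inner (𝕜 := ℂ) (kv z) u).congr_fun ?_
    intro α
    rw [RCLike.inner_apply]
    change _ = u α * conj (kfun z α)
    unfold kfun
    rw [map_mul, Complex.conj_conj, Complex.conj_ofReal]
    ring

/-- A contractive kernel multiplier is a multiplier of the Drury-Arveson space. -/
theorem Contr.mem_mult {φ : Ball 2 → ℂ} (h : Contr kv φ) : φ ∈ Mult 2 := by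
  rintro f ⟨a, hf⟩
  obtain ⟨u, hu⟩ := hf.rep
  obtain ⟨u', hu'⟩ := h.exists_mul u
  refine ⟨_, HasCoeff.of_rep (u := u') ?_⟩
  intro z
  rw [hu', hu]
  rfl

end Pool.Agent.K4H52.DA
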