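import Pool.Agent.K4H52.DA.Outer

set_option autoImplicit false
open MeasureTheory Filter Topology Set
open scoped ENNReal NNReal ComplexConjugate InnerProductSpace

namespace Pool.Agent.K4H52.DA

lemma cs_tsum {x y : ℕ → ℝ} (hx : Summable fun k => x k ^ 2) (hy : Summable fun k => y k ^ 2) :
    Summable (fun k => x k * y k) ∧ (∑' k, x k * y k) ^ 2 ≤ (∑' k, x k ^ 2) * ∑' k, y k ^ 2 := by
  have hs : Summable fun k => x k * y k := by
    refine Summable.of_norm_bounded (hx.add hy) fun k => ?_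
    rw [Real.norm_eq_abs, abs_le]
    constructor <;> nlinarith [sq_nonneg (x k - y k), sq_nonneg (x k + y k)]
  refine ⟨hs, ?_⟩
  have h1 := hs.hasSum.tendsto_sum_nat.pow 2
  have h2 := hx.hasSum.tendsto_sum_nat.mul hy.hasSum.tendsto_sum_nat
  refine le_of_tendsto_of_tendsto' h1 h2 fun n => ?_
  exact Finset.sum_mul_sq_le_sq_mul_sq _ _ _

lemma sum_ay {a s : ℝ} (ha : 0 < a) (hs : 0 < s) (has : a ^ 2 + s ^ 2 = 1) (j : ℕ) :
    HasSum (fun k : ℕ => ((j + k).choose j : ℝ) * (a ^ k) ^ 2) (1 / (s ^ 2) ^ (j + 1)) := by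
  have ha1 : a ^ 2 < 1 := by nlinarith
  have h2 := hasSum_choose_mul_geometric_of_norm_lt_one (𝕜 := ℝ) j (r := a ^ 2)
      (by rw [Real.norm_eq_abs, abs_of_nonneg (sq_nonneg a)]; exact ha1)
  have h3 : 1 - a ^ 2 = s ^ 2 := by linarith
  rw [h3] at h2
  refine h2.congr_fun ?_
  intro k
  rw [add_comm j k, ← pow_mul, ← pow_mul, mul_comm k 2]

/-- restriction of a function on the ball to the disc `{(s w, a) : |w| < 1}` -/
noncomputable def restr (a s : ℝ) (g : Ball 2 → ℂ) : ℂ → ℂ := fun w =>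
  open Classical in
  if h : ∑ i, ‖(![(s : ℂ) * w, (a : ℂ)] : Fin 2 → ℂ) i‖ ^ 2 < 1 then g ⟨_, h⟩ else 0

section
variable {a s : ℝ} (ha : 0 < a) (hs : 0 < s) (has : a ^ 2 + s ^ 2 = 1)

include hs has in
lemma pt_mem {w : ℂ} (hw : ‖w‖ < 1) :
    ∑ i, ‖(![(s : ℂ) * w, (a : ℂ)] : Fin 2 → ℂ) i‖ ^ 2 < 1 := by
  rw [Fin.sum_univ_two]
  simp only [Matrix.cons_val_zero, Matrix.cons_val_one, norm_mul, Complex.norm_real,
    Real.norm_eq_abs, mul_pow, sq_abs]
  have h1 : ‖w‖ ^ 2 < 1 := by nlinarith [norm_nonneg w]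
  have h2 : 0 < s ^ 2 := by positivity
  nlinarith

include hs has in
lemma restr_eq (g : Ball 2 → ℂ) {w : ℂ} (hw : ‖w‖ < 1) :
    restr a s g w = g ⟨![(s : ℂ) * w, (a : ℂ)], pt_mem hs has hw⟩ := by
  unfold restr
  rw [dif_pos (pt_mem hs has hw)]

include hs has in
lemma restr_ff (ν : Measure ℝ) {w : ℂ} (hw : ‖w‖ < 1) : restr a s (ff ν a s) w = Sf ν w := by
  rw [restr_eq hs has _ hw]
  unfold ff phi
  simp only [Matrix.cons_val_zero, Matrix.cons_val_one]
  congr 1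
  have h1 : 1 - (a : ℂ) * a = s * s := by
    have : ((a ^ 2 + s ^ 2 : ℝ) : ℂ) = 1 := by rw [has]; simp
    push_cast at this
    linear_combination -this
  rw [h1]
  have : (s : ℂ) ≠ 0 := Complex.ofReal_ne_zero.2 hs.ne'
  field_simp

include ha hs has in
/-- restriction is bounded from the Drury-Arveson space to the Hardy space of the disc -/
theorem restr_bound {g : Ball 2 → ℂ} {A : (Fin 2 → ℕ) → ℂ} (h : HasCoeff g A) :
    ∃ c : ℕ → ℂ, (Summable fun j => ‖c j‖ ^ 2) ∧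
      (∑' j, ‖c j‖ ^ 2 ≤ (∑' α, wt α * ‖A α‖ ^ 2) / s ^ 2) ∧
      ∀ w : ℂ, ‖w‖ < 1 → HasSum (fun j => c j * w ^ j) (restr a s g w) := by
  let e := (finTwoArrowEquiv ℕ).symm
  have he : ∀ p : ℕ × ℕ, e p = ![p.1, p.2] := fun p => rfl
  set B : ℕ → ℕ → ℂ := fun j k => A (e (j, k)) with hB
  set W : ℕ → ℕ → ℝ := fun j k => wt (e (j, k)) with hW
  have hWpos : ∀ j k, 0 < W j k := fun j k => wt_pos _
  have hWinv : ∀ j k, (W j k)⁻¹ = ((j + k).choose j : ℝ) := by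
    intro j k
    rw [hW, wt_inv]
    simp [he]
  have hsum2 : Summable fun p : ℕ × ℕ => W p.1 p.2 * ‖B p.1 p.2‖ ^ 2 := by
    have := e.summable_iff.2 h.summable
    exact this
  have htot : ∑' α, wt α * ‖A α‖ ^ 2 = ∑' p : ℕ × ℕ, W p.1 p.2 * ‖B p.1 p.2‖ ^ 2 :=
    (e.tsum_eq (fun α => wt α * ‖A α‖ ^ 2)).symm
  set T : ℕ → ℝ := fun j => ∑' k, W j k * ‖B j k‖ ^ 2 with hT
  have hfib : ∀ j, Summable fun k => W j k * ‖B j k‖ ^ 2 := fun j => hsum2.prod_factor j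
  have hTs : HasSum T (∑' p : ℕ × ℕ, W p.1 p.2 * ‖B p.1 p.2‖ ^ 2) :=
    hsum2.hasSum.prod_fiberwise fun j => (hfib j).hasSum
  have hcs : ∀ j, (Summable fun k => ‖B j k‖ * a ^ k) ∧
      (∑' k, ‖B j k‖ * a ^ k) ^ 2 ≤ T j * (1 / (s ^ 2) ^ (j + 1)) := by
    intro j
    have hx : Summable fun k => (√(W j k) * ‖B j k‖) ^ 2 := by
      refine (hfib j).congr fun k => ?_
      rw [mul_pow, Real.sq_sqrt (hWpos j k).le]
    have hy0 := sum_ay ha hs has j
    have hy1 : ∀ k, ((√(W j k))⁻¹ * a ^ k) ^ 2 = ((j + k).choose j : ℝ) * (a ^ k) ^ 2 := by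
      intro k
      rw [mul_pow, inv_pow, Real.sq_sqrt (hWpos j k).le, hWinv]
    have hy : Summable fun k => ((√(W j k))⁻¹ * a ^ k) ^ 2 := by
      simp_rw [hy1]
      exact hy0.summable
    have h1 := cs_tsum hx hy
    have h2 : ∀ k, √(W j k) * ‖B j k‖ * ((√(W j k))⁻¹ * a ^ k) = ‖B j k‖ * a ^ k := by
      intro k
      have : √(W j k) ≠ 0 := (Real.sqrt_pos.2 (hWpos j k)).ne'
      field_simp
    simp_rw [h2, hy1] at h1
    refine ⟨h1.1, h1.2.trans (le_of_eq ?_)⟩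
    rw [hy0.tsum_eq]
    congr 1
    apply tsum_congr
    intro k
    rw [mul_pow, Real.sq_sqrt (hWpos j k).le]
  have hBs : ∀ j, Summable fun k => B j k * (a : ℂ) ^ k := by
    intro j
    refine Summable.of_norm ((hcs j).1.congr fun k => ?_)
    rw [norm_mul, norm_pow, Complex.norm_real, Real.norm_eq_abs, abs_of_pos ha]
  set b : ℕ → ℂ := fun j => ∑' k, B j k * (a : ℂ) ^ k with hb
  have hbn : ∀ j, ‖b j‖ ^ 2 ≤ T j * (1 / (s ^ 2) ^ (j + 1)) := by
    intro j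
    refine le_trans ?_ (hcs j).2
    apply pow_le_pow_left₀ (norm_nonneg _)
    have h1 : ∀ k, ‖B j k * (a : ℂ) ^ k‖ = ‖B j k‖ * a ^ k := by
      intro k
      rw [norm_mul, norm_pow, Complex.norm_real, Real.norm_eq_abs, abs_of_pos ha]
    have h2 := norm_tsum_le_tsum_norm (f := fun k => B j k * (a : ℂ) ^ k)
      ((hcs j).1.congr fun k => (h1 k).symm)
    simp_rw [h1] at h2
    exact h2
  have hcn : ∀ j, ‖b j * (s : ℂ) ^ j‖ ^ 2 ≤ T j / s ^ 2 := by
    intro j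
    rw [norm_mul, norm_pow, Complex.norm_real, Real.norm_eq_abs, abs_of_pos hs, mul_pow]
    have h1 := mul_le_mul_of_nonneg_right (hbn j) (by positivity : 0 ≤ (s ^ j) ^ 2)
    refine h1.trans (le_of_eq ?_)
    rw [← pow_mul, ← pow_mul, mul_comm j 2, mul_add, pow_add]
    have : s ≠ 0 := hs.ne'
    field_simp
  have hTd : Summable fun j => T j / s ^ 2 := hTs.summable.div_const _
  have hcsum : Summable fun j => ‖b j * (s : ℂ) ^ j‖ ^ 2 :=
    Summable.of_nonneg_of_le (fun j => by positivity) hcn hTd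
  refine ⟨fun j => b j * (s : ℂ) ^ j, hcsum, ?_, ?_⟩
  · calc ∑' j, ‖b j * (s : ℂ) ^ j‖ ^ 2 ≤ ∑' j, T j / s ^ 2 := hcsum.tsum_le_tsum hcn hTd
      _ = (∑' α, wt α * ‖A α‖ ^ 2) / s ^ 2 := by
        rw [tsum_div_const, hTs.tsum_eq, htot]
  · intro w hw
    rw [restr_eq hs has g hw]
    have h1 := h.hasSum ⟨![(s : ℂ) * w, (a : ℂ)], pt_mem hs has hw⟩
    rw [← e.hasSum_iff] at h1
    have h2 : HasSum (fun p : ℕ × ℕ => B p.1 p.2 * (((s : ℂ) * w) ^ p.1 * (a : ℂ) ^ p.2))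
        (g ⟨![(s : ℂ) * w, (a : ℂ)], pt_mem hs has hw⟩) := by
      refine h1.congr_fun ?_
      intro p
      simp only [Function.comp, Fin.prod_univ_two, he, hB, Matrix.cons_val_zero,
        Matrix.cons_val_one]
    have h3 := h2.prod_fiberwise (g := fun j => b j * ((s : ℂ) * w) ^ j) (fun j => by
      have := (hBs j).hasSum.mul_right (((s : ℂ) * w) ^ j)
      refine this.congr_fun ?_
      intro k
      ring)
    refine h3.congr_fun ?_
    intro j
    rw [mul_pow]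
    ring

end

lemma differentiableAt_of_hasSum {c : ℕ → ℂ} {g : ℂ → ℂ}
    (hg : ∀ w : ℂ, ‖w‖ < 1 → HasSum (fun j => c j * w ^ j) (g w)) {w : ℂ} (hw : ‖w‖ < 1) :
    DifferentiableAt ℂ g w := by
  obtain ⟨ρ, h1, h2⟩ := exists_between hw
  have hρ : 0 ≤ ρ := (norm_nonneg w).trans h1.le
  have hsum : Summable fun j => ‖c j‖ * ρ ^ j := by
    have h3 := (hg ρ (by rw [Complex.norm_real, Real.norm_eq_abs, abs_of_nonneg hρ]; exact h2)).summable.norm
    refine h3.congr fun j => ?_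
    rw [norm_mul, norm_pow, Complex.norm_real, Real.norm_eq_abs, abs_of_nonneg hρ]
  have h4 : DifferentiableOn ℂ (fun w => ∑' j, c j * w ^ j) (Metric.ball 0 ρ) := by
    apply Complex.differentiableOn_tsum_of_summable_norm hsum
    · intro j
      apply Differentiable.differentiableOn
      fun_prop
    · exact Metric.isOpen_ball
    · intro j x hx
      rw [norm_mul, norm_pow]
      have hx' : ‖x‖ < ρ := by simpa using hx
      gcongr
  have hball : Metric.ball (0:ℂ) ρ ∈ 𝓝 w := Metric.isOpen_ball.mem_nhds (by simpa using h1)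
  have h5 := h4.differentiableAt hball
  refine h5.congr_of_eventuallyEq ?_
  filter_upwards [hball] with x hx
  have hx' : ‖x‖ < 1 := lt_trans (by simpa using hx) h2
  exact (hg x hx').tsum_eq.symm

end Pool.Agent.K4H52.DA
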