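import Pool.Agent.K4H52.DA.Herg
import Pool.Agent.K4H52.DA.Meas

set_option autoImplicit false
open MeasureTheory Filter Topology Set
open scoped ENNReal NNReal ComplexConjugate InnerProductSpace

namespace Pool.Agent.K4H52.DA

lemma hasDerivAt_herg {w : ℂ} {θ : ℝ} (h : xi θ - w ≠ 0) :
    HasDerivAt (fun w => herg θ w) (2 * xi θ / (xi θ - w) ^ 2) w := by
  unfold herg
  have h1 : HasDerivAt (fun w : ℂ => xi θ + w) 1 w := by
    simpa using (hasDerivAt_id w).const_add (xi θ)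
  have h2 : HasDerivAt (fun w : ℂ => xi θ - w) (-1) w := by
    simpa using (hasDerivAt_id w).const_sub (xi θ)
  have h3 := h1.div h2 h
  have h4 : (1 * (xi θ - w) - (xi θ + w) * -1) / (xi θ - w) ^ 2 = 2 * xi θ / (xi θ - w) ^ 2 := by
    ring
  rw [h4] at h3
  exact h3

lemma differentiableAt_Hf (ν : Measure ℝ) [IsFiniteMeasure ν] {w : ℂ} (hw : ‖w‖ < 1) :
    DifferentiableAt ℂ (Hf ν) w := by
  obtain ⟨ρ, h1, h2⟩ := exists_between hw
  have hball : Metric.ball (0:ℂ) ρ ∈ 𝓝 w := Metric.isOpen_ball.mem_nhds (by simpa using h1)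
  have key := hasDerivAt_integral_of_dominated_loc_of_deriv_le (μ := ν) (𝕜 := ℂ)
    (F := fun w θ => herg θ w) (F' := fun w θ => 2 * xi θ / (xi θ - w) ^ 2) (x₀ := w)
    (s := Metric.ball (0:ℂ) ρ) (bound := fun _ => 2 / (1 - ρ) ^ 2) hball ?_ ?_ ?_ ?_ ?_ ?_
  · exact key.2.differentiableAt
  · filter_upwards [hball] with x hx
    have hx1 : ‖x‖ < 1 := lt_trans (by simpa using hx) h2
    exact (integrable_herg ν hx1).aestronglyMeasurable
  · exact integrable_herg ν hw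
  · apply Continuous.aestronglyMeasurable
    exact (continuous_const.mul continuous_xi).div ((continuous_xi.sub continuous_const).pow 2)
      fun θ => pow_ne_zero 2 (xi_sub_ne hw θ)
  · refine Eventually.of_forall fun θ x hx => ?_
    have hx1 : ‖x‖ < ρ := by simpa using hx
    rw [norm_div, norm_mul, norm_pow, norm_xi, mul_one]
    have h3 := norm_xi_sub (w := x) θ
    have h4 : 0 < 1 - ρ := by linarith
    have h5 : 1 - ρ ≤ ‖xi θ - x‖ := by linarith
    have h6 : ‖(2:ℂ)‖ = 2 := by simp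
    rw [h6]
    exact div_le_div_of_nonneg_left (by norm_num) (by positivity)
      (pow_le_pow_left₀ h4.le h5 2)
  · exact integrable_const _
  · refine Eventually.of_forall fun θ x hx => ?_
    have hx1 : ‖x‖ < 1 := lt_trans (by simpa using hx) h2
    exact hasDerivAt_herg (xi_sub_ne hx1 θ)

lemma differentiableAt_Sf (ν : Measure ℝ) [IsFiniteMeasure ν] {w : ℂ} (hw : ‖w‖ < 1) :
    DifferentiableAt ℂ (Sf ν) w := by
  unfold Sf
  exact (differentiableAt_Hf ν hw).neg.cexp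

lemma Hf_re (ν : Measure ℝ) [IsFiniteMeasure ν] {w : ℂ} (hw : ‖w‖ < 1) :
    (Hf ν w).re = ∫ θ, (herg θ w).re ∂ν := by
  unfold Hf
  have h3 := integral_re (integrable_herg ν hw)
  rw [← RCLike.re_eq_complex_re, ← h3]

lemma herg_re_nonneg {w : ℂ} (hw : ‖w‖ ≤ 1) (θ : ℝ) : 0 ≤ (herg θ w).re := by
  rw [herg_re]
  have := norm_nonneg w
  apply div_nonneg _ (sq_nonneg _)
  nlinarith

lemma Hf_re_nonneg (ν : Measure ℝ) [IsFiniteMeasure ν] {w : ℂ} (hw : ‖w‖ < 1) :
    0 ≤ (Hf ν w).re := by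
  rw [Hf_re ν hw]
  exact integral_nonneg fun θ => herg_re_nonneg hw.le θ

lemma norm_Sf (ν : Measure ℝ) (w : ℂ) : ‖Sf ν w‖ = Real.exp (-(Hf ν w).re) := by
  unfold Sf
  rw [Complex.norm_exp, Complex.neg_re]

lemma norm_Sf_le (ν : Measure ℝ) [IsFiniteMeasure ν] {w : ℂ} (hw : ‖w‖ < 1) : ‖Sf ν w‖ ≤ 1 := by
  rw [norm_Sf, Real.exp_le_one_iff]
  linarith [Hf_re_nonneg ν hw]

lemma Sf_ne_zero (ν : Measure ℝ) (w : ℂ) : Sf ν w ≠ 0 := Complex.exp_ne_zero _

lemma herg_zero (θ : ℝ) : herg θ 0 = 1 := by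
  unfold herg
  rw [add_zero, sub_zero, div_self]
  exact Complex.exp_ne_zero _

lemma Hf_zero (ν : Measure ℝ) [IsProbabilityMeasure ν] : Hf ν 0 = 1 := by
  unfold Hf
  simp_rw [herg_zero]
  simp

lemma Sf_zero (ν : Measure ℝ) [IsProbabilityMeasure ν] : Sf ν 0 = Complex.exp (-1) := by
  unfold Sf
  rw [Hf_zero]

/-- `xi t` determines `t` up to multiples of `2π` -/
lemma xi_eq_iff {s t : ℝ} : xi s = xi t ↔ ∃ n : ℤ, s = t + n * (2 * Real.pi) := by
  unfold xi
  rw [Complex.exp_eq_exp_iff_exists_int]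
  constructor
  · rintro ⟨n, hn⟩
    refine ⟨n, ?_⟩
    have h1 : ((s : ℂ) - (t + n * (2 * Real.pi))) * Complex.I = 0 := by
      linear_combination hn
    rw [mul_eq_zero] at h1
    rcases h1 with h1 | h1
    · have h2 : ((s - (t + n * (2 * Real.pi)) : ℝ) : ℂ) = 0 := by
        push_cast
        exact h1
      rw [Complex.ofReal_eq_zero] at h2
      linarith
    · exact absurd h1 Complex.I_ne_zero
  · rintro ⟨n, hn⟩
    refine ⟨n, ?_⟩
    rw [hn]
    push_cast
    ring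

lemma countable_xi_eq (c : ℂ) : {θ : ℝ | xi θ = c}.Countable := by
  by_cases h : ∃ θ0, xi θ0 = c
  · obtain ⟨θ0, h0⟩ := h
    have : {θ : ℝ | xi θ = c} ⊆ range fun n : ℤ => θ0 + n * (2 * Real.pi) := by
      intro θ hθ
      have h1 : xi θ = xi θ0 := by
        rw [h0]
        exact hθ
      obtain ⟨n, hn⟩ := xi_eq_iff.1 h1
      exact ⟨n, hn.symm⟩
    exact (countable_range _).mono this
  · have : {θ : ℝ | xi θ = c} = ∅ := by
      ext θ
      simp only [mem_setOf_eq, mem_empty_iff_false, iff_false]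
      exact fun h1 => h ⟨θ, h1⟩
    rw [this]
    exact countable_empty

/-- almost every point of the circle is off the support of `ν` -/
lemma ae_not_mem : ∀ᵐ t : ℝ, xi t ∉ xi '' cantorSet := by
  have h1 : {t : ℝ | ¬ (xi t ∉ xi '' cantorSet)} ⊆
      ⋃ n : ℤ, (fun x => x - n * (2 * Real.pi)) ⁻¹' cantorSet := by
    intro t ht
    simp only [mem_setOf_eq, not_not] at ht
    obtain ⟨θ, hθ, h⟩ := ht
    obtain ⟨n, hn⟩ := xi_eq_iff.1 h.symm
    rw [mem_iUnion]
    refine ⟨n, ?_⟩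
    rw [mem_preimage]
    have : t - n * (2 * Real.pi) = θ := by linarith
    rw [this]
    exact hθ
  rw [ae_iff]
  refine measure_mono_null h1 (measure_iUnion_null fun n => ?_)
  have := (measurePreserving_sub_right (volume : Measure ℝ) ((n : ℝ) * (2 * Real.pi)))
  rw [this.measure_preimage isClosed_cantorSet.measurableSet.nullMeasurableSet]
  exact volume_cantor

lemma tendsto_Hf {ν : Measure ℝ} [IsProbabilityMeasure ν] (hν : ν (cantorSet)ᶜ = 0) {t : ℝ}
    (ht : xi t ∉ xi '' cantorSet) :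
    Tendsto (fun r : ℝ => (Hf ν (r * xi t)).re) (𝓝[<] 1) (𝓝 0) := by
  have hE : IsCompact (xi '' cantorSet) := isCompact_cantorSet.image continuous_xi
  have hne : (xi '' cantorSet).Nonempty := ⟨xi 0, 0, zero_mem_cantorSet, rfl⟩
  obtain ⟨δ, hδ, hδ2⟩ : ∃ δ > 0, ∀ y ∈ xi '' cantorSet, δ ≤ ‖y - xi t‖ := by
    refine ⟨Metric.infDist (xi t) (xi '' cantorSet), ?_, ?_⟩
    · exact (hE.isClosed.notMem_iff_infDist_pos hne).1 ht
    · intro y hy
      have := Metric.infDist_le_dist_of_mem hy (x := xi t)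
      rwa [dist_comm, dist_eq_norm] at this
  have hb : ∀ᶠ r : ℝ in 𝓝[<] 1, (Hf ν (r * xi t)).re ≤ 4 * (1 - r ^ 2) / δ ^ 2 := by
    have h1 : ∀ᶠ r : ℝ in 𝓝[<] 1, max 0 (1 - δ / 2) < r := by
      apply eventually_nhdsWithin_of_eventually_nhds
      apply lt_mem_nhds
      rw [max_lt_iff]
      constructor <;> linarith
    filter_upwards [h1, self_mem_nhdsWithin] with r hr hr1
    rw [max_lt_iff] at hr
    have hr1' : r < 1 := hr1
    have hn : ‖(r : ℂ) * xi t‖ = r := by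
      rw [norm_mul, norm_xi, mul_one, Complex.norm_real, Real.norm_eq_abs, abs_of_pos hr.1]
    rw [Hf_re ν (by rw [hn]; exact hr1')]
    have hae : ∀ᵐ θ ∂ν, (herg θ (r * xi t)).re ≤ 4 * (1 - r ^ 2) / δ ^ 2 := by
      have : ∀ᵐ θ ∂ν, θ ∈ cantorSet := by
        rw [ae_iff]
        exact hν
      filter_upwards [this] with θ hθ
      rw [herg_re, hn]
      have h3 := hδ2 _ (mem_image_of_mem xi hθ)
      have h4 : ‖xi θ - xi t‖ ≤ ‖xi θ - r * xi t‖ + (1 - r) := by
        have : xi θ - xi t = (xi θ - r * xi t) - ((1 - r : ℝ) : ℂ) * xi t := by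
          push_cast
          ring
        rw [this]
        refine (norm_sub_le _ _).trans ?_
        rw [norm_mul ((1 - r : ℝ) : ℂ), norm_xi, mul_one, Complex.norm_real, Real.norm_eq_abs,
          abs_of_pos (by linarith)]
      have h5 : δ / 2 ≤ ‖xi θ - r * xi t‖ := by linarith [hr.2]
      have h6 : (δ / 2) ^ 2 ≤ ‖xi θ - r * xi t‖ ^ 2 := pow_le_pow_left₀ (by positivity) h5 2
      have h7 : 0 ≤ 1 - r ^ 2 := by nlinarith [hr.1]
      calc (1 - r ^ 2) / ‖xi θ - r * xi t‖ ^ 2 ≤ (1 - r ^ 2) / (δ / 2) ^ 2 :=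
            div_le_div_of_nonneg_left h7 (by positivity) h6
        _ = 4 * (1 - r ^ 2) / δ ^ 2 := by
            field_simp
            ring
    have hint : Integrable (fun θ => (herg θ (r * xi t)).re) ν :=
      (integrable_herg ν (by rw [hn]; exact hr1')).re
    calc ∫ θ, (herg θ (r * xi t)).re ∂ν ≤ ∫ _, 4 * (1 - r ^ 2) / δ ^ 2 ∂ν :=
          integral_mono_ae hint (integrable_const _) hae
      _ = 4 * (1 - r ^ 2) / δ ^ 2 := by simp
  have h0 : ∀ᶠ r : ℝ in 𝓝[<] 1, 0 ≤ (Hf ν (r * xi t)).re := by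
    have h1 : ∀ᶠ r : ℝ in 𝓝[<] 1, (0:ℝ) < r := by
      apply eventually_nhdsWithin_of_eventually_nhds
      exact lt_mem_nhds one_pos
    filter_upwards [h1, self_mem_nhdsWithin] with r hr hr1
    apply Hf_re_nonneg ν
    rw [norm_mul, norm_xi, mul_one, Complex.norm_real, Real.norm_eq_abs, abs_of_pos hr]
    exact hr1
  refine tendsto_of_tendsto_of_tendsto_of_le_of_le' tendsto_const_nhds ?_ h0 hb
  have h2 : Tendsto (fun r : ℝ => 4 * (1 - r ^ 2) / δ ^ 2) (𝓝 1) (𝓝 (4 * (1 - 1 ^ 2) / δ ^ 2)) := by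
    apply Continuous.tendsto
    fun_prop
  have h3 : 4 * (1 - (1:ℝ) ^ 2) / δ ^ 2 = 0 := by norm_num
  rw [h3] at h2
  exact h2.mono_left nhdsWithin_le_nhds

lemma tendsto_norm_Sf {ν : Measure ℝ} [IsProbabilityMeasure ν] (hν : ν (cantorSet)ᶜ = 0) {t : ℝ}
    (ht : xi t ∉ xi '' cantorSet) :
    Tendsto (fun r : ℝ => ‖Sf ν (r * xi t)‖) (𝓝[<] 1) (𝓝 1) := by
  simp_rw [norm_Sf]
  have h := (tendsto_Hf hν ht).neg.rexp
  simpa using h

end Pool.Agent.K4H52.DA
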